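import Pool.Agent.Lib.MP_2c6f70_nt.Defs

/-!
# JOB Psd: positivity, trace inequality, large subsets

Pure finite sums: `P` finite set, `w ≥ 0` weights, `s p x` real numbers.
-/

set_option autoImplicit false

namespace Pool.Agent.Lib.MP_2c6f70_nt

/-- The correlations form a positive semidefinite matrix: the double sum is `∑ p, w p * (∑ x, s p x)^2`. -/
theorem sum_corr_nonneg {α β : Type*} (P : Finset α) (S : Finset β) (w : α → ℝ) (hw : ∀ p ∈ P, 0 ≤ w p)
    (s : α → β → ℝ) : 0 ≤ ∑ x ∈ S, ∑ y ∈ S, ∑ p ∈ P, w p * (s p x * s p y) := by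
  have h : ∑ x ∈ S, ∑ y ∈ S, ∑ p ∈ P, w p * (s p x * s p y) =
      ∑ p ∈ P, w p * (∑ x ∈ S, s p x) ^ 2 := by
    calc _ = ∑ x ∈ S, ∑ p ∈ P, ∑ y ∈ S, w p * (s p x * s p y) :=
          Finset.sum_congr rfl fun x _ => Finset.sum_comm
      _ = ∑ p ∈ P, ∑ x ∈ S, ∑ y ∈ S, w p * (s p x * s p y) := Finset.sum_comm
      _ = _ := by
          refine Finset.sum_congr rfl fun p _ => ?_
          rw [sq, Finset.sum_mul_sum, Finset.mul_sum]
          refine Finset.sum_congr rfl fun x _ => ?_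
          rw [Finset.mul_sum]
  rw [h]
  exact Finset.sum_nonneg fun p hp => mul_nonneg (hw p hp) (sq_nonneg _)

/-- The trace inequality.  With `B p p' = ∑ x, s p x * s p' x` the right hand side is `∑ p p', w p * w p' * (B p p')^2`, at least
`∑ p, w p ^ 2 * T ^ 2` (`B p p = T` because `s p x ^ 2 = 1`), `T = #S`. -/
theorem trace_ineq_w {α β : Type*} (P : Finset α) (S : Finset β) (w : α → ℝ)
    (hw : ∀ p ∈ P, 0 ≤ w p) (s : α → β → ℝ) (hs : ∀ p ∈ P, ∀ x ∈ S, s p x * s p x = 1) :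
    (∑ p ∈ P, w p ^ 2) * (S.card : ℝ) ^ 2 ≤
      ∑ x ∈ S, ∑ y ∈ S, (∑ p ∈ P, w p * (s p x * s p y)) ^ 2 := by
  have key : ∑ x ∈ S, ∑ y ∈ S, (∑ p ∈ P, w p * (s p x * s p y)) ^ 2 =
      ∑ p ∈ P, ∑ p' ∈ P, w p * w p' * (∑ x ∈ S, s p x * s p' x) ^ 2 := by
    calc _ = ∑ x ∈ S, ∑ y ∈ S, ∑ p ∈ P, ∑ p' ∈ P,
          (w p * (s p x * s p y)) * (w p' * (s p' x * s p' y)) := by
          refine Finset.sum_congr rfl fun x _ => Finset.sum_congr rfl fun y _ => ?_
          rw [sq, Finset.sum_mul_sum]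
      _ = ∑ x ∈ S, ∑ p ∈ P, ∑ y ∈ S, ∑ p' ∈ P,
          (w p * (s p x * s p y)) * (w p' * (s p' x * s p' y)) :=
          Finset.sum_congr rfl fun x _ => Finset.sum_comm
      _ = ∑ p ∈ P, ∑ x ∈ S, ∑ y ∈ S, ∑ p' ∈ P,
          (w p * (s p x * s p y)) * (w p' * (s p' x * s p' y)) := Finset.sum_comm
      _ = ∑ p ∈ P, ∑ x ∈ S, ∑ p' ∈ P, ∑ y ∈ S,
          (w p * (s p x * s p y)) * (w p' * (s p' x * s p' y)) :=
          Finset.sum_congr rfl fun p _ => Finset.sum_congr rfl fun x _ => Finset.sum_comm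
      _ = ∑ p ∈ P, ∑ p' ∈ P, ∑ x ∈ S, ∑ y ∈ S,
          (w p * (s p x * s p y)) * (w p' * (s p' x * s p' y)) :=
          Finset.sum_congr rfl fun p _ => Finset.sum_comm
      _ = _ := by
          refine Finset.sum_congr rfl fun p _ => Finset.sum_congr rfl fun p' _ => ?_
          rw [sq (∑ x ∈ S, s p x * s p' x), Finset.sum_mul_sum, Finset.mul_sum]
          refine Finset.sum_congr rfl fun x _ => ?_
          rw [Finset.mul_sum]
          refine Finset.sum_congr rfl fun y _ => ?_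
          ring
  have hdiag : ∀ p ∈ P, w p ^ 2 * (S.card : ℝ) ^ 2 ≤
      ∑ p' ∈ P, w p * w p' * (∑ x ∈ S, s p x * s p' x) ^ 2 := by
    intro p hp
    have h1 : w p * w p * (∑ x ∈ S, s p x * s p x) ^ 2 ≤
        ∑ p' ∈ P, w p * w p' * (∑ x ∈ S, s p x * s p' x) ^ 2 :=
      Finset.single_le_sum (f := fun p' => w p * w p' * (∑ x ∈ S, s p x * s p' x) ^ 2)
        (fun p' hp' => mul_nonneg (mul_nonneg (hw p hp) (hw p' hp')) (sq_nonneg _)) hp
    have h2 : ∑ x ∈ S, s p x * s p x = (S.card : ℝ) := by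
      rw [Finset.sum_congr rfl (hs p hp), Finset.sum_const, nsmul_eq_mul, mul_one]
    rw [h2, ← sq] at h1
    exact h1
  rw [key, Finset.sum_mul]
  exact Finset.sum_le_sum hdiag

/-- The trace inequality with the number of elements: Cauchy-Schwarz. -/
theorem trace_ineq {α β : Type*} (P : Finset α) (S : Finset β) (w : α → ℝ)
    (hw : ∀ p ∈ P, 0 ≤ w p) (s : α → β → ℝ) (hs : ∀ p ∈ P, ∀ x ∈ S, s p x * s p x = 1) :
    (S.card : ℝ) ^ 2 * (∑ p ∈ P, w p) ^ 2 ≤
      P.card * ∑ x ∈ S, ∑ y ∈ S, (∑ p ∈ P, w p * (s p x * s p y)) ^ 2 := by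
  have h3 : (∑ p ∈ P, w p) ^ 2 ≤ P.card * ∑ p ∈ P, w p ^ 2 := sq_sum_le_card_mul_sum_sq
  have h4 := trace_ineq_w P S w hw s hs
  calc (S.card : ℝ) ^ 2 * (∑ p ∈ P, w p) ^ 2
      ≤ (S.card : ℝ) ^ 2 * (P.card * ∑ p ∈ P, w p ^ 2) :=
        mul_le_mul_of_nonneg_left h3 (sq_nonneg _)
    _ = P.card * ((∑ p ∈ P, w p ^ 2) * (S.card : ℝ) ^ 2) := by ring
    _ ≤ _ := mul_le_mul_of_nonneg_left h4 (Nat.cast_nonneg _)

/-- The `r` heaviest elements: remove a lightest element (`Finset.exists_min_image`) `#P - r` times. -/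
theorem exists_heavy {α : Type*} [DecidableEq α] (P : Finset α) (w : α → ℝ)
    (hw : ∀ p ∈ P, 0 ≤ w p) (r : ℕ) (hr : r ≤ P.card) :
    ∃ R ⊆ P, R.card = r ∧ (r : ℝ) * ∑ p ∈ P, w p ≤ P.card * ∑ p ∈ R, w p := by
  rcases Nat.eq_zero_or_pos r with h0 | hpos
  · subst h0
    exact ⟨∅, Finset.empty_subset _, rfl, by simp⟩
  obtain ⟨n, hn⟩ := Nat.exists_eq_add_of_le hr
  clear hr
  induction n generalizing P with
  | zero =>
    refine ⟨P, subset_rfl, by omega, ?_⟩
    rw [hn]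
    simp
  | succ n ih =>
    have hne : P.Nonempty := by
      rw [← Finset.card_pos]
      omega
    obtain ⟨p0, hp0, hmin⟩ := Finset.exists_min_image P w hne
    have hcard : (P.erase p0).card = r + n := by
      rw [Finset.card_erase_of_mem hp0]
      omega
    obtain ⟨R, hR, hRc, hRw⟩ := ih (P.erase p0)
      (fun p hp => hw p (Finset.mem_of_mem_erase hp)) hcard
    refine ⟨R, hR.trans (Finset.erase_subset _ _), hRc, ?_⟩
    have h1 : w p0 + ∑ p ∈ P.erase p0, w p = ∑ p ∈ P, w p := Finset.add_sum_erase P w hp0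
    have h2 : ((P.erase p0).card : ℝ) * w p0 ≤ ∑ p ∈ P.erase p0, w p := by
      have := Finset.card_nsmul_le_sum (P.erase p0) w (w p0)
        (fun p hp => hmin p (Finset.mem_of_mem_erase hp))
      rwa [nsmul_eq_mul] at this
    have hc1 : ((P.erase p0).card : ℝ) = (r : ℝ) + n := by
      rw [hcard]
      push_cast
      ring
    have hc2 : (P.card : ℝ) = (r : ℝ) + n + 1 := by
      rw [hn]
      push_cast
      ring
    rw [hc1] at h2 hRw
    rw [hc2, ← h1]
    have hr1 : (1 : ℝ) ≤ r := by exact_mod_cast hpos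
    have hn0 : (0 : ℝ) ≤ n := Nat.cast_nonneg n
    have hpos' : (0 : ℝ) < r + n := by linarith
    refine le_of_mul_le_mul_left ?_ hpos'
    calc ((r : ℝ) + n) * (r * (w p0 + ∑ p ∈ P.erase p0, w p))
        = r * (((r : ℝ) + n) * w p0) + r * (((r : ℝ) + n) * ∑ p ∈ P.erase p0, w p) := by ring
      _ ≤ r * (∑ p ∈ P.erase p0, w p) + r * (((r : ℝ) + n) * ∑ p ∈ P.erase p0, w p) := by
          have := mul_le_mul_of_nonneg_left h2 (by linarith : (0 : ℝ) ≤ r)
          linarith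
      _ = ((r : ℝ) + n + 1) * (r * ∑ p ∈ P.erase p0, w p) := by ring
      _ ≤ ((r : ℝ) + n + 1) * (((r : ℝ) + n) * ∑ p ∈ R, w p) :=
          mul_le_mul_of_nonneg_left hRw (by linarith)
      _ = ((r : ℝ) + n) * (((r : ℝ) + n + 1) * ∑ p ∈ R, w p) := by ring

/-- A family of sign vectors with small pairwise correlations, all equal on a set `R` of weight at least `2 L`, is small.
Proof: for `x ≠ y` the correlation on `P \ R` is `≤ L - W_R` (on `R` it is `W_R = ∑ p ∈ R, w p` as `s p x * s p y = 1`);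
`sum_corr_nonneg` on `P \ R`: `0 ≤ m (W - W_R) + m (m-1) (L - W_R)`, `m = #S`; so
`(m - 1) * (W_R - L) ≤ W - W_R ≤ W` and `W_R - L ≥ W_R / 2`. -/
theorem card_fiber_le {α β : Type*} [DecidableEq α] [DecidableEq β] (P R : Finset α) (hR : R ⊆ P)
    (S : Finset β) (w : α → ℝ)
    (hw : ∀ p ∈ P, 0 ≤ w p) (s : α → β → ℝ) (hs : ∀ p ∈ P, ∀ x ∈ S, s p x * s p x = 1)
    (hsR : ∀ p ∈ R, ∀ x ∈ S, ∀ y ∈ S, s p x = s p y) (L : ℝ) (hL : 0 < L)
    (hLR : 2 * L ≤ ∑ p ∈ R, w p)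
    (hM : ∀ x ∈ S, ∀ y ∈ S, x ≠ y → ∑ p ∈ P, w p * (s p x * s p y) ≤ L) :
    ((S.card : ℝ) - 1) * (∑ p ∈ R, w p) ≤ 2 * ∑ p ∈ P, w p := by
  set WR : ℝ := ∑ p ∈ R, w p with hWR
  set W : ℝ := ∑ p ∈ P, w p with hW
  have hWR0 : 0 ≤ WR := Finset.sum_nonneg fun p hp => hw p (hR hp)
  have hsplit : ∀ f : α → ℝ, ∑ p ∈ P \ R, f p = ∑ p ∈ P, f p - ∑ p ∈ R, f p := by
    intro f
    rw [← Finset.sum_sdiff hR]
    ring
  have hWW : ∑ p ∈ P \ R, w p = W - WR := hsplit w
  have hdiff0 : 0 ≤ W - WR := by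
    rw [← hWW]
    exact Finset.sum_nonneg fun p hp => hw p (Finset.mem_sdiff.mp hp).1
  rcases S.eq_empty_or_nonempty with hS | hS
  · subst hS
    simp only [Finset.card_empty, Nat.cast_zero, zero_sub, neg_mul, one_mul]
    linarith
  have hm : (1 : ℝ) ≤ S.card := by exact_mod_cast hS.card_pos
  have h0 := sum_corr_nonneg (P \ R) S w (fun p hp => hw p (Finset.mem_sdiff.mp hp).1) s
  have hrow : ∀ x ∈ S, ∑ y ∈ S, ∑ p ∈ P \ R, w p * (s p x * s p y) ≤
      (W - WR) + ((S.card : ℝ) - 1) * (L - WR) := by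
    intro x hx
    rw [← Finset.add_sum_erase S (fun y => ∑ p ∈ P \ R, w p * (s p x * s p y)) hx]
    have h1 : ∑ p ∈ P \ R, w p * (s p x * s p x) = W - WR := by
      rw [← hWW]
      refine Finset.sum_congr rfl fun p hp => ?_
      rw [hs p (Finset.mem_sdiff.mp hp).1 x hx, mul_one]
    have h2 : ∀ y ∈ S.erase x, ∑ p ∈ P \ R, w p * (s p x * s p y) ≤ L - WR := by
      intro y hy
      have hy' := Finset.mem_erase.mp hy
      rw [hsplit]
      have h3 : ∑ p ∈ R, w p * (s p x * s p y) = WR := by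
        refine Finset.sum_congr rfl fun p hp => ?_
        rw [← hsR p hp x hx y hy'.2, hs p (hR hp) x hx, mul_one]
      rw [h3]
      have := hM x hx y hy'.2 (Ne.symm hy'.1)
      linarith
    have h4 := Finset.sum_le_card_nsmul (S.erase x)
      (fun y => ∑ p ∈ P \ R, w p * (s p x * s p y)) (L - WR) h2
    rw [nsmul_eq_mul, Finset.card_erase_of_mem hx, Nat.cast_sub hS.card_pos, Nat.cast_one] at h4
    rw [h1]
    linarith
  have hsum := Finset.sum_le_card_nsmul S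
    (fun x => ∑ y ∈ S, ∑ p ∈ P \ R, w p * (s p x * s p y)) _ hrow
  rw [nsmul_eq_mul] at hsum
  have h5 : 0 ≤ (W - WR) + ((S.card : ℝ) - 1) * (L - WR) := by
    have h6 := le_trans h0 hsum
    by_contra hneg
    push Not at hneg
    have := mul_neg_of_pos_of_neg (lt_of_lt_of_le one_pos hm) hneg
    linarith
  have h7 : ((S.card : ℝ) - 1) * (WR / 2) ≤ ((S.card : ℝ) - 1) * (WR - L) :=
    mul_le_mul_of_nonneg_left (by linarith) (by linarith)
  nlinarith

/-- Pigeonhole.  `s p x = 1` or `-1`.  Take `R` from `exists_heavy`: `∑_R w ≥ (r / #P) W ≥ 2 L`.  The map `x ↦ (s p x = 1)_(p ∈ R)`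
has at most `2^r` values (e.g. into `R.powerset`: `x ↦ R.filter (s p x = 1)`, `Finset.card_powerset`); every fibre has at most
`1 + 2 W / W_R ≤ 1 + 2 #P / r ≤ 1 + 2 #P` elements (`card_fiber_le`, `1 ≤ r`); `Finset.card_le_mul_card_image` or
`Finset.card_eq_sum_card_fiberwise`. -/
theorem pigeon {α β : Type*} [DecidableEq α] [DecidableEq β] (P : Finset α) (S : Finset β) (w : α → ℝ)
    (hw : ∀ p ∈ P, 0 ≤ w p) (s : α → β → ℝ) (hs : ∀ p ∈ P, ∀ x ∈ S, s p x = 1 ∨ s p x = -1)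
    (L : ℝ) (hL : 0 < L) (r : ℕ) (hr1 : 1 ≤ r) (hr : r ≤ P.card)
    (hrL : 2 * L * P.card ≤ r * ∑ p ∈ P, w p)
    (hM : ∀ x ∈ S, ∀ y ∈ S, x ≠ y → ∑ p ∈ P, w p * (s p x * s p y) ≤ L) :
    (S.card : ℝ) ≤ 2 ^ r * (1 + 2 * P.card) := by
  classical
  obtain ⟨R, hR, hRc, hRw⟩ := exists_heavy P w hw r hr
  set WR : ℝ := ∑ p ∈ R, w p with hWR
  set W : ℝ := ∑ p ∈ P, w p with hW
  have hr1' : (1 : ℝ) ≤ r := by exact_mod_cast hr1
  have hP1 : (1 : ℝ) ≤ P.card := by exact_mod_cast hr1.trans hr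
  have hW0 : 0 ≤ W := Finset.sum_nonneg hw
  have hLR : 2 * L ≤ WR := by
    have h1 : (P.card : ℝ) * (2 * L) ≤ P.card * WR := by linarith
    exact le_of_mul_le_mul_left h1 (by linarith)
  have hWR0 : 0 < WR := by linarith
  have hsq : ∀ p ∈ P, ∀ x ∈ S, s p x * s p x = 1 := by
    intro p hp x hx
    rcases hs p hp x hx with h | h <;> rw [h] <;> norm_num
  have hfib : ∀ T ∈ S.image (fun x => R.filter fun p => s p x = 1),
      (S.filter fun x => (R.filter fun p => s p x = 1) = T).card ≤ 1 + 2 * P.card := by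
    intro T _
    set S' := S.filter fun x => (R.filter fun p => s p x = 1) = T with hS'
    have hsub : S' ⊆ S := Finset.filter_subset _ _
    have hsR : ∀ p ∈ R, ∀ x ∈ S', ∀ y ∈ S', s p x = s p y := by
      intro p hp x hx y hy
      have hx2 := (Finset.mem_filter.mp hx).2
      have hy2 := (Finset.mem_filter.mp hy).2
      have hiff : s p x = 1 ↔ s p y = 1 := by
        have h1 : p ∈ (R.filter fun p => s p x = 1) ↔ p ∈ (R.filter fun p => s p y = 1) := by
          rw [hx2, hy2]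
        simpa [Finset.mem_filter, hp] using h1
      rcases hs p (hR hp) x (hsub hx) with h | h
      · rw [h, hiff.mp h]
      · rcases hs p (hR hp) y (hsub hy) with h' | h'
        · rw [hiff.mpr h', h']
        · rw [h, h']
    have h2 := card_fiber_le P R hR S' w hw s (fun p hp x hx => hsq p hp x (hsub hx)) hsR L hL hLR
      (fun x hx y hy hxy => hM x (hsub hx) y (hsub hy) hxy)
    have h3 : W ≤ P.card * WR := by
      refine le_trans ?_ hRw
      nlinarith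
    have h4 : ((S'.card : ℝ) - 1) * WR ≤ (2 * P.card) * WR := by
      calc ((S'.card : ℝ) - 1) * WR ≤ 2 * W := h2
        _ ≤ 2 * (P.card * WR) := by linarith
        _ = _ := by ring
    have h5 : (S'.card : ℝ) - 1 ≤ 2 * P.card := le_of_mul_le_mul_right h4 hWR0
    have h6 : (S'.card : ℝ) ≤ ((1 + 2 * P.card : ℕ) : ℝ) := by
      push_cast
      linarith
    exact_mod_cast h6
  have h1 := Finset.card_le_mul_card_image (f := fun x => R.filter fun p => s p x = 1) S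
    (1 + 2 * P.card) hfib
  have h2 : (S.image (fun x => R.filter fun p => s p x = 1)).card ≤ 2 ^ r := by
    have h3 : S.image (fun x => R.filter fun p => s p x = 1) ⊆ R.powerset := by
      intro T hT
      obtain ⟨x, _, rfl⟩ := Finset.mem_image.mp hT
      exact Finset.mem_powerset.mpr (Finset.filter_subset _ _)
    have h4 := Finset.card_le_card h3
    rwa [Finset.card_powerset, hRc] at h4
  have h3 : S.card ≤ (1 + 2 * P.card) * 2 ^ r := h1.trans (Nat.mul_le_mul_left _ h2)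
  have h4 : (S.card : ℝ) ≤ (((1 + 2 * P.card) * 2 ^ r : ℕ) : ℝ) := by exact_mod_cast h3
  push_cast at h4
  linarith

end Pool.Agent.Lib.MP_2c6f70_nt
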