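import Pool.Agent.Lib.MP_2c6f70_nt.Sg
import Pool.Agent.Lib.MP_2c6f70_nt.Psd

/-!
# JOB Abs: two sided bound of the correlations and its consequences
-/

set_option autoImplicit false

namespace Pool.Agent.Lib.MP_2c6f70_nt

/-- Sum of a function with one value on the diagonal and another off it. -/
theorem Abs_sum_ite (S : Finset ℕ) (a b : ℝ) :
    ∑ x ∈ S, ∑ y ∈ S, (if x = y then a else b) = (S.card : ℝ) * a + S.card * ((S.card : ℝ) - 1) * b := by
  have h : ∀ x ∈ S, ∑ y ∈ S, (if x = y then a else b) = a + ((S.card : ℝ) - 1) * b := by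
    intro x hx
    have h1 : ∀ y ∈ S, (if x = y then a else b) = b + (if x = y then a - b else 0) := by
      intro y _
      split_ifs <;> ring
    rw [Finset.sum_congr rfl h1, Finset.sum_add_distrib, Finset.sum_ite_eq, if_pos hx,
      Finset.sum_const, nsmul_eq_mul]
    ring
  rw [Finset.sum_congr rfl h, Finset.sum_const, nsmul_eq_mul]
  ring

theorem Abs_WW_nonneg (q : ℕ) : 0 ≤ WW q :=
  Finset.sum_nonneg fun _ hp => (wt_pos hp).le

/-- Lower bound of all correlations.  Let `X = max S`, `κ = WW q - 2 log (2 X)`; `MM_ge`: all correlations are `≥ κ` (`x + y ≤ 2 X`).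
If `X^2 ≤ 4 q N`: `κ ≥ WW q - log (16 q N) ≥ - log (32 N) ≥ - 2 log (5 N / 2)` (`q ≤ 2 qs`, `WW = log qs`, `N ≥ 6`).
If `X^2 > 4 q N`: every `x ∈ S` has `X^2 - x^2 ≤ q N < X^2 / 4`, so `x ≥ (4/5) X`, `x + y ≥ (8/5) X`, and `MM_le'` gives
`MM ≤ WW + 2 log (2 N) - 2 log ((8/5) X) = κ + 2 log (5 N / 2)` for `x ≠ y`; `sum_corr_nonneg`:
`0 ≤ T WW + T (T - 1) (κ + 2 log (5 N / 2))`, `T = #S`, so `κ ≥ - 2 log (5 N / 2) - WW / (T - 1)`. -/
theorem MM_abs_ge {q N : ℕ} {S : Finset ℕ} (hq : q ≠ 0) (hN : 6 ≤ N) (hS : Good q N S)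
    (hT : 2 ≤ S.card) {x y z : ℕ} (hx : x ∈ S) (hy : y ∈ S) (hz : z ∈ S) (hxy : x ≠ y) :
    -(2 * Real.log (5 / 2 * N) + WW q / ((S.card : ℝ) - 1)) ≤ MM q z x y := by
  classical
  have hWW := Abs_WW_nonneg q
  have hne : S.Nonempty := ⟨x, hx⟩
  obtain ⟨X, hXS, hXmax⟩ := S.exists_max_image id hne
  simp only [id] at hXmax
  have hNr : (6 : ℝ) ≤ N := by exact_mod_cast hN
  have hTr : (2 : ℝ) ≤ S.card := by exact_mod_cast hT
  have hT1 : (0 : ℝ) < (S.card : ℝ) - 1 := by linarith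
  have hxX : (x : ℝ) ≤ X := by exact_mod_cast hXmax x hx
  have hyX : (y : ℝ) ≤ X := by exact_mod_cast hXmax y hy
  have hxy0 : (0 : ℝ) < (x : ℝ) + y := by
    have : 0 < x + y := by omega
    exact_mod_cast this
  have hX0 : (0 : ℝ) < X := by linarith
  have hqr : (0 : ℝ) < q := by exact_mod_cast Nat.pos_of_ne_zero hq
  have hκ : WW q - 2 * Real.log (2 * X) ≤ MM q z x y := by
    refine le_trans ?_ (MM_ge hS hx hy hz hxy)
    have : Real.log ((x : ℝ) + y) ≤ Real.log (2 * X) := Real.log_le_log hxy0 (by linarith)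
    linarith
  refine le_trans ?_ hκ
  have hlogX : 2 * Real.log (2 * X) = Real.log (4 * (X : ℝ) ^ 2) := by
    rw [show (4 : ℝ) * (X : ℝ) ^ 2 = (2 * X) ^ 2 by ring, Real.log_pow]
    norm_num
  have hdiv : 0 ≤ WW q / ((S.card : ℝ) - 1) := div_nonneg hWW hT1.le
  by_cases hc : X ^ 2 ≤ 4 * q * N
  · have hcr : (X : ℝ) ^ 2 ≤ 4 * q * N := by exact_mod_cast hc
    have hqs : (q : ℝ) ≤ 2 * (qs q : ℝ) := by exact_mod_cast le_two_mul_qs hq
    have hqs0 : (0 : ℝ) < qs q := by exact_mod_cast qs_pos q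
    have h1 : Real.log (4 * (X : ℝ) ^ 2) ≤ Real.log ((5 / 2 * N) ^ 2 * qs q) := by
      apply Real.log_le_log (by positivity)
      have h2 : 4 * (X : ℝ) ^ 2 ≤ 16 * q * N := by linarith
      have h3 : (16 : ℝ) * q * N ≤ 32 * qs q * N := by nlinarith
      have h4 : (32 : ℝ) * N ≤ (5 / 2 * N) ^ 2 := by nlinarith
      have h5 : (32 : ℝ) * N * qs q ≤ (5 / 2 * N) ^ 2 * qs q :=
        mul_le_mul_of_nonneg_right h4 hqs0.le
      linarith
    rw [Real.log_mul (by positivity) hqs0.ne', Real.log_pow, ← WW_eq] at h1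
    rw [hlogX]
    push_cast at h1
    linarith
  · push Not at hc
    have hcr : 4 * (q : ℝ) * N < (X : ℝ) ^ 2 := by exact_mod_cast hc
    have hbig : ∀ u ∈ S, 4 / 5 * (X : ℝ) ≤ u := by
      intro u hu
      obtain ⟨d, hd, hdN⟩ := hS.2 u hu X hXS (hXmax u hu)
      have hd' : (X : ℝ) ^ 2 = (u : ℝ) ^ 2 + q * d := by exact_mod_cast hd
      have hdN' : (d : ℝ) ≤ N := by exact_mod_cast hdN.le
      have h1 : (q : ℝ) * d ≤ q * N := mul_le_mul_of_nonneg_left hdN' hqr.le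
      have h2 : (4 / 5 * (X : ℝ)) ^ 2 ≤ (u : ℝ) ^ 2 := by nlinarith
      exact (pow_le_pow_iff_left₀ (by positivity) (by positivity) two_ne_zero).1 h2
    have hup : ∀ u ∈ S, ∀ v ∈ S, MM q z u v ≤
        if u = v then WW q else WW q - 2 * Real.log (2 * X) + 2 * Real.log (5 / 2 * N) := by
      intro u hu v hv
      split_ifs with huv
      · rw [huv, MM_self]
      · refine le_trans (MM_le' hq hS hu hv hz huv) ?_
        have h1 : Real.log (8 / 5 * X) ≤ Real.log ((u : ℝ) + v) := by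
          apply Real.log_le_log (by positivity)
          have := hbig u hu
          have := hbig v hv
          linarith
        have h2 : Real.log (2 * X) + Real.log (2 * N) =
            Real.log (8 / 5 * X) + Real.log (5 / 2 * N) := by
          rw [← Real.log_mul (by positivity) (by positivity),
            ← Real.log_mul (by positivity) (by positivity)]
          congr 1
          ring
        linarith
    have hsum := sum_corr_nonneg q.primeFactors S (wt q) (fun p hp => (wt_pos hp).le)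
      (fun p x => sg q z p x)
    have hsum' : ∑ u ∈ S, ∑ v ∈ S, MM q z u v ≤ (S.card : ℝ) * WW q + S.card *
        ((S.card : ℝ) - 1) * (WW q - 2 * Real.log (2 * X) + 2 * Real.log (5 / 2 * N)) := by
      rw [← Abs_sum_ite]
      exact Finset.sum_le_sum fun u hu => Finset.sum_le_sum fun v hv => hup u hu v hv
    have h0 : 0 ≤ (S.card : ℝ) * (WW q +
        ((S.card : ℝ) - 1) * (WW q - 2 * Real.log (2 * X) + 2 * Real.log (5 / 2 * N))) := by
      refine le_trans hsum (le_trans hsum' (le_of_eq ?_))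
      ring
    have h1 := nonneg_of_mul_nonneg_right h0 (by linarith)
    have h2 : WW q = (WW q / ((S.card : ℝ) - 1)) * ((S.card : ℝ) - 1) := by
      rw [div_mul_cancel₀ _ hT1.ne']
    have h3 : 0 ≤ ((S.card : ℝ) - 1) * (WW q / ((S.card : ℝ) - 1) +
        (WW q - 2 * Real.log (2 * X) + 2 * Real.log (5 / 2 * N))) := by
      have h5 : ((S.card : ℝ) - 1) * (WW q / ((S.card : ℝ) - 1) +
          (WW q - 2 * Real.log (2 * X) + 2 * Real.log (5 / 2 * N))) =
          WW q / ((S.card : ℝ) - 1) * ((S.card : ℝ) - 1) +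
          ((S.card : ℝ) - 1) * (WW q - 2 * Real.log (2 * X) + 2 * Real.log (5 / 2 * N)) := by
        ring
      rw [h5, ← h2]
      exact h1
    have h4 := nonneg_of_mul_nonneg_right h3 hT1
    linarith

/-- Large number of prime factors.  `trace_ineq_w` with `|MM| ≤ E = 2 log (5 N / 2) + WW / (T - 1)` for `x ≠ y` (`MM_le`,
`log (2 N) ≤ 2 log (5 N / 2)`) and `MM = WW` for `x = y`:
`T^2 ∑ wt^2 ≤ T WW^2 + T (T-1) E^2` and `E^2 ≤ 2 (2 log (5 N / 2))^2 + 2 (WW / (T-1))^2`.  Divide by `T * WW^2` (`WW > 0` as `1 < q`). -/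
theorem card_le_trace_w {q N : ℕ} {S : Finset ℕ} (hq : 1 < q) (hN : 6 ≤ N) (hS : Good q N S)
    (hT : 2 ≤ S.card) :
    (S.card : ℝ) * ∑ p ∈ q.primeFactors, wt q p ^ 2 ≤ (WW q) ^ 2 *
      (1 + 8 * ((S.card : ℝ) - 1) * (Real.log (5 / 2 * N) / WW q) ^ 2 + 2 / ((S.card : ℝ) - 1)) := by
  classical
  obtain ⟨z, hz⟩ : S.Nonempty := Finset.card_pos.1 (by omega)
  have hNr : (6 : ℝ) ≤ N := by exact_mod_cast hN
  have hTr : (2 : ℝ) ≤ S.card := by exact_mod_cast hT
  have hT1 : (0 : ℝ) < (S.card : ℝ) - 1 := by linarith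
  have hT0 : (0 : ℝ) < (S.card : ℝ) := by linarith
  have hWW : 0 < WW q := by
    have hne : q.primeFactors.Nonempty := Nat.nonempty_primeFactors.2 hq
    exact Finset.sum_pos (fun _ hp => wt_pos hp) hne
  set G := Real.log (5 / 2 * N) with hG
  set T1 := (S.card : ℝ) - 1 with hT1def
  have hG0 : 0 ≤ G := Real.log_nonneg (by linarith)
  set E := 2 * G + WW q / T1 with hE
  have hdiv : 0 ≤ WW q / T1 := div_nonneg hWW.le hT1.le
  have hE0 : 0 ≤ E := by positivity
  have hMsq : ∀ u ∈ S, ∀ v ∈ S, (MM q z u v) ^ 2 ≤ if u = v then (WW q) ^ 2 else E ^ 2 := by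
    intro u hu v hv
    split_ifs with huv
    · rw [huv, MM_self]
    · have h1 : -E ≤ MM q z u v := MM_abs_ge (by omega) hN hS hT hu hv hz huv
      have h2 : MM q z u v ≤ E := by
        refine le_trans (MM_le (by omega) hS hu hv hz huv) ?_
        have h3 : Real.log (2 * N) ≤ G := Real.log_le_log (by positivity) (by linarith)
        linarith
      exact sq_le_sq' h1 h2
  have htr := trace_ineq_w q.primeFactors S (wt q) (fun p hp => (wt_pos hp).le)
    (fun p x => sg q z p x) (fun p _ x _ => sg_sq q z p x)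
  have hsum : ∑ u ∈ S, ∑ v ∈ S, (MM q z u v) ^ 2 ≤ (S.card : ℝ) * (WW q) ^ 2 +
      S.card * T1 * E ^ 2 := by
    rw [hT1def, ← Abs_sum_ite]
    exact Finset.sum_le_sum fun u hu => Finset.sum_le_sum fun v hv => hMsq u hu v hv
  have hmain : (∑ p ∈ q.primeFactors, wt q p ^ 2) * (S.card : ℝ) ^ 2 ≤
      (S.card : ℝ) * (WW q) ^ 2 + S.card * T1 * E ^ 2 := le_trans htr hsum
  have hEsq : E ^ 2 ≤ 8 * G ^ 2 + 2 * (WW q / T1) ^ 2 := by
    rw [hE]
    nlinarith [sq_nonneg (2 * G - WW q / T1)]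
  have hkey : (S.card : ℝ) * (S.card * ∑ p ∈ q.primeFactors, wt q p ^ 2) ≤ S.card *
      ((WW q) ^ 2 + T1 * (8 * G ^ 2 + 2 * (WW q / T1) ^ 2)) := by
    have h1 : (S.card : ℝ) * T1 * E ^ 2 ≤ S.card * T1 * (8 * G ^ 2 + 2 * (WW q / T1) ^ 2) :=
      mul_le_mul_of_nonneg_left hEsq (by positivity)
    calc (S.card : ℝ) * (S.card * ∑ p ∈ q.primeFactors, wt q p ^ 2)
        = (∑ p ∈ q.primeFactors, wt q p ^ 2) * (S.card : ℝ) ^ 2 := by ring
      _ ≤ (S.card : ℝ) * (WW q) ^ 2 + S.card * T1 * E ^ 2 := hmain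
      _ ≤ (S.card : ℝ) * (WW q) ^ 2 + S.card * T1 * (8 * G ^ 2 + 2 * (WW q / T1) ^ 2) := by
        linarith
      _ = _ := by ring
  have hkey2 := le_of_mul_le_mul_left hkey hT0
  refine le_trans hkey2 (le_of_eq ?_)
  have e1 : T1 ≠ 0 := hT1.ne'
  have e2 : WW q ≠ 0 := hWW.ne'
  field_simp
  try ring

/-- The unweighted form: `WW^2 ≤ D ∑ wt^2`. -/
theorem card_le_trace {q N : ℕ} {S : Finset ℕ} (hq : 1 < q) (hN : 6 ≤ N) (hS : Good q N S)
    (hT : 2 ≤ S.card) :
    (S.card : ℝ) ≤ q.primeFactors.card *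
      (1 + 8 * ((S.card : ℝ) - 1) * (Real.log (5 / 2 * N) / WW q) ^ 2 + 2 / ((S.card : ℝ) - 1)) := by
  have h := card_le_trace_w hq hN hS hT
  have hWW : 0 < WW q := by
    have hne : q.primeFactors.Nonempty := Nat.nonempty_primeFactors.2 hq
    exact Finset.sum_pos (fun _ hp => wt_pos hp) hne
  have hcs : (WW q) ^ 2 ≤ q.primeFactors.card * ∑ p ∈ q.primeFactors, wt q p ^ 2 :=
    sq_sum_le_card_mul_sum_sq
  have hWW2 : (0 : ℝ) < (WW q) ^ 2 := by positivity
  refine le_of_mul_le_mul_right ?_ hWW2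
  calc (S.card : ℝ) * (WW q) ^ 2
      ≤ S.card * (q.primeFactors.card * ∑ p ∈ q.primeFactors, wt q p ^ 2) :=
        mul_le_mul_of_nonneg_left hcs (Nat.cast_nonneg _)
    _ = q.primeFactors.card * (S.card * ∑ p ∈ q.primeFactors, wt q p ^ 2) := by ring
    _ ≤ q.primeFactors.card * ((WW q) ^ 2 * (1 + 8 * ((S.card : ℝ) - 1) *
        (Real.log (5 / 2 * N) / WW q) ^ 2 + 2 / ((S.card : ℝ) - 1))) :=
        mul_le_mul_of_nonneg_left h (Nat.cast_nonneg _)
    _ = _ := by ring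

/-- Few prime factors: `pigeon` with `L = log (2 N)`, `MM_le`. -/
theorem card_le_pigeon {q N : ℕ} {S : Finset ℕ} (hq : q ≠ 0) (hN : 1 ≤ N) (hS : Good q N S) (r : ℕ)
    (hr1 : 1 ≤ r) (hr : r ≤ q.primeFactors.card)
    (hrL : 2 * Real.log (2 * N) * q.primeFactors.card ≤ r * WW q) :
    (S.card : ℝ) ≤ 2 ^ r * (1 + 2 * q.primeFactors.card) := by
  classical
  rcases S.eq_empty_or_nonempty with h | ⟨z, hz⟩
  · rw [h, Finset.card_empty]
    push_cast
    positivity
  have hNr : (1 : ℝ) ≤ N := by exact_mod_cast hN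
  exact pigeon q.primeFactors S (wt q) (fun p hp => (wt_pos hp).le) (fun p x => sg q z p x)
    (fun p _ x _ => sg_eq_or q z p x) (Real.log (2 * N)) (Real.log_pos (by linarith)) r hr1 hr hrL
    (fun x hx y hy hxy => MM_le hq hS hx hy hz hxy)

end Pool.Agent.Lib.MP_2c6f70_nt
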