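import Mathlib

/-!
# JOB Lower: a lower bound for the logarithm of a number with many prime factors
-/

set_option autoImplicit false

namespace Pool.Agent.Lib.MP_2c6f70_nt

/-- At most `k` elements of a set of positive integers are smaller than `k`... so the product is at least `k ^ (#A - k)`. -/
theorem pow_le_prod (A : Finset ℕ) (hA : ∀ a ∈ A, 0 < a) (k : ℕ) (hk : 1 ≤ k) :
    k ^ (A.card - k) ≤ ∏ a ∈ A, a := by
  classical
  have h1 : (A.filter fun a => ¬ k ≤ a).card ≤ k := by
    have h2 : (A.filter fun a => ¬ k ≤ a) ⊆ Finset.range k := by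
      intro a ha
      rw [Finset.mem_filter] at ha
      exact Finset.mem_range.2 (not_le.1 ha.2)
    calc _ ≤ (Finset.range k).card := Finset.card_le_card h2
      _ = k := Finset.card_range k
  have h3 : A.card - k ≤ (A.filter fun a => k ≤ a).card := by
    have h4 := Finset.card_filter_add_card_filter_not (s := A) (fun a => k ≤ a)
    omega
  calc k ^ (A.card - k) ≤ k ^ (A.filter fun a => k ≤ a).card := Nat.pow_le_pow_right hk h3
    _ ≤ ∏ a ∈ A.filter (fun a => k ≤ a), a := by
        refine Finset.pow_card_le_prod _ _ _ fun a ha => ?_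
        exact (Finset.mem_filter.1 ha).2
    _ ≤ ∏ a ∈ A, a := by
        refine Finset.prod_le_prod_of_subset_of_one_le' (Finset.filter_subset _ _) fun a ha _ => ?_
        exact hA a ha

/-- `q ≥ ∏ p ≥ k^(D - k)`, `D = ω(q)`, `k = D / 2` (integer part): `log q ≥ (D / 2) log (D / 3)` for `D ≥ 4`, and
`(D / 2) (log D - log 3) - log 2 ≥ (D / 4) log D` if `log D ≥ 3` (`D ≥ 21`): `log 3 ≤ 1.1`, `log 2 ≤ 0.7`. -/
theorem log_ge {q : ℕ} (hq : q ≠ 0) (hD : 21 ≤ q.primeFactors.card) :
    (q.primeFactors.card : ℝ) / 4 * Real.log q.primeFactors.card ≤ Real.log q - Real.log 2 := by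
  obtain ⟨D, hDd⟩ : ∃ D : ℕ, D = q.primeFactors.card := ⟨_, rfl⟩
  rw [← hDd] at hD ⊢
  obtain ⟨k, hk⟩ : ∃ k : ℕ, k = D / 2 := ⟨_, rfl⟩
  have hk1 : 1 ≤ k := by omega
  have h1 : k ^ (D - k) ≤ q := by
    have h2 := pow_le_prod q.primeFactors (fun a ha => (Nat.prime_of_mem_primeFactors ha).pos) k hk1
    rw [← hDd] at h2
    exact h2.trans (Nat.le_of_dvd (Nat.pos_of_ne_zero hq) (Nat.prod_primeFactors_dvd q))
  have hDr : (21 : ℝ) ≤ D := by exact_mod_cast hD
  have hkr : (D : ℝ) / 3 ≤ k := by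
    have : D ≤ 3 * k := by omega
    have h3 : (D : ℝ) ≤ 3 * k := by exact_mod_cast this
    linarith
  have hkD : (D : ℝ) / 2 ≤ ((D - k : ℕ) : ℝ) := by
    have : D ≤ 2 * (D - k) := by omega
    have h3 : (D : ℝ) ≤ 2 * ((D - k : ℕ) : ℝ) := by exact_mod_cast this
    linarith
  have h4 : ((D - k : ℕ) : ℝ) * Real.log k ≤ Real.log q := by
    rw [← Real.log_pow]
    refine Real.log_le_log (by positivity) ?_
    exact_mod_cast h1
  have h5 : Real.log ((D : ℝ) / 3) ≤ Real.log k := Real.log_le_log (by positivity) hkr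
  have h6 : Real.log ((D : ℝ) / 3) = Real.log D - Real.log 3 := by
    rw [Real.log_div (by positivity) (by norm_num)]
  have h7 : Real.log 18 ≤ Real.log D := Real.log_le_log (by norm_num) (by linarith)
  have h8 : Real.log 18 = 2 * Real.log 3 + Real.log 2 := by
    rw [show (18 : ℝ) = 3 ^ 2 * 2 by norm_num, Real.log_mul (by norm_num) (by norm_num), Real.log_pow]
    norm_num
  have h9 : 0 ≤ Real.log 2 := Real.log_nonneg (by norm_num)
  have h10 : 0 ≤ Real.log 3 := Real.log_nonneg (by norm_num)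
  have h11 : 0 ≤ Real.log D - Real.log 3 := by linarith
  have h12 : (D : ℝ) / 2 * (Real.log D - Real.log 3) ≤ ((D - k : ℕ) : ℝ) * Real.log k :=
    mul_le_mul hkD (by rw [← h6]; exact h5) h11 (by positivity)
  have h13 : (D : ℝ) / 4 * (2 * Real.log 3 + Real.log 2) ≤ (D : ℝ) / 4 * Real.log D :=
    mul_le_mul_of_nonneg_left (by linarith) (by positivity)
  nlinarith [mul_nonneg (by linarith : (0 : ℝ) ≤ (D : ℝ) / 4 - 1) h9]

end Pool.Agent.Lib.MP_2c6f70_nt
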