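import Pool.Agent.Lib.MP_2c6f70_nt.Cls

/-!
# JOB Small: small moduli
-/

set_option autoImplicit false

namespace Pool.Agent.Lib.MP_2c6f70_nt

/-- `m` coprime to `6`: all prime factors are at least `5`, `5 ^ ω(m) ≤ ∏ p ≤ m` (`Nat.prod_primeFactors_dvd`). -/
theorem five_pow_le {m : ℕ} (hm : m ≠ 0) (h : m.Coprime 6) : 5 ^ m.primeFactors.card ≤ m := by
  have h1 : ∀ p ∈ m.primeFactors, 5 ≤ p := by
    intro p hp
    have hpp := Nat.prime_of_mem_primeFactors hp
    have hpd := Nat.dvd_of_mem_primeFactors hp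
    have h2 : p.Coprime 6 := Nat.Coprime.coprime_dvd_left hpd h
    have h2' := hpp.two_le
    by_contra hlt
    push Not at hlt
    interval_cases p
    · exact absurd h2 (by decide)
    · exact absurd h2 (by decide)
    · exact absurd hpp (by decide)
  calc 5 ^ m.primeFactors.card = ∏ _p ∈ m.primeFactors, 5 := by rw [Finset.prod_const]
    _ ≤ ∏ p ∈ m.primeFactors, p := Finset.prod_le_prod' h1
    _ ≤ m := Nat.le_of_dvd (Nat.pos_of_ne_zero hm) (Nat.prod_primeFactors_dvd m)

/-- For odd `m ≠ 3`: write `m = 3^j m'`, `m'` coprime to `6`, `4^ω(m') ≤ m'` and `5 * 4^ω(m') ≤ 4 m'` if `m' > 1`.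
`j = 0`: `4^ω ≤ m`.  `j = 1`: `m' > 1`, `15 * 4 * 4^ω(m') ≤ 48 m' = 16 m`.  `j ≥ 2`: `4 * 4^ω(m') ≤ 4 m' ≤ m`. -/
theorem four_pow_le {m : ℕ} (hm : Odd m) (h3 : m ≠ 3) : 15 * 4 ^ m.primeFactors.card ≤ 16 * m := by
  have hm0 : m ≠ 0 := by
    rintro rfl
    exact absurd hm (by decide)
  set j := m.factorization 3 with hj
  set m' := m / 3 ^ j with hm'
  have hmm : 3 ^ j * m' = m := Nat.ordProj_mul_ordCompl_eq_self m 3
  have hm'0 : m' ≠ 0 := by
    intro h0
    rw [h0, mul_zero] at hmm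
    exact hm0 hmm.symm
  have hc3 : m'.Coprime 3 := (Nat.coprime_ordCompl Nat.prime_three hm0).symm
  have hc2 : m'.Coprime 2 := by
    have h1 : m.Coprime 2 := Nat.coprime_two_right.2 hm
    exact Nat.Coprime.coprime_dvd_left ⟨3 ^ j, by rw [← hmm]; ring⟩ h1
  have hc6 : m'.Coprime 6 := by
    have : (6 : ℕ) = 2 * 3 := by norm_num
    rw [this]
    exact Nat.Coprime.mul_right hc2 hc3
  have h5 := five_pow_le hm'0 hc6
  have h45 : 4 ^ m'.primeFactors.card ≤ 5 ^ m'.primeFactors.card :=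
    Nat.pow_le_pow_left (by norm_num) _
  have hbig : m' ≠ 1 → 5 * 4 ^ m'.primeFactors.card ≤ 4 * m' := by
    intro h1
    have hne : m'.primeFactors.Nonempty :=
      Nat.nonempty_primeFactors.2 (Nat.one_lt_iff_ne_zero_and_ne_one.2 ⟨hm'0, h1⟩)
    have hpos : 0 < m'.primeFactors.card := Finset.card_pos.2 hne
    obtain ⟨k, hk⟩ : ∃ k, m'.primeFactors.card = k + 1 := ⟨m'.primeFactors.card - 1, by omega⟩
    rw [hk] at h5 ⊢
    have h6 : 4 ^ k ≤ 5 ^ k := Nat.pow_le_pow_left (by norm_num) _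
    calc 5 * 4 ^ (k + 1) = 4 * (5 * 4 ^ k) := by ring
      _ ≤ 4 * (5 * 5 ^ k) := by gcongr
      _ = 4 * 5 ^ (k + 1) := by ring
      _ ≤ 4 * m' := by gcongr
  rcases Nat.lt_or_ge j 1 with hj0 | hj1
  · have hj' : j = 0 := by omega
    rw [hj', pow_zero, one_mul] at hmm
    rw [← hmm]
    omega
  · have hω : m.primeFactors.card ≤ m'.primeFactors.card + 1 := by
      have h1 : m.primeFactors = (3 ^ j).primeFactors ∪ m'.primeFactors := by
        conv_lhs => rw [← hmm]
        exact Nat.primeFactors_mul (by positivity) hm'0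
      rw [h1]
      have h2 : (3 ^ j).primeFactors = {3} :=
        Nat.primeFactors_prime_pow (by omega) Nat.prime_three
      rw [h2]
      have h3 := Finset.card_union_le {3} m'.primeFactors
      simpa [add_comm] using h3
    have h4 : 4 ^ m.primeFactors.card ≤ 4 * 4 ^ m'.primeFactors.card := by
      calc 4 ^ m.primeFactors.card ≤ 4 ^ (m'.primeFactors.card + 1) :=
            Nat.pow_le_pow_right (by norm_num) hω
        _ = 4 * 4 ^ m'.primeFactors.card := by ring
    rcases Nat.lt_or_ge j 2 with hj2 | hj2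
    · have hj' : j = 1 := by omega
      rw [hj', pow_one] at hmm
      have h1 : m' ≠ 1 := by
        intro h1
        rw [h1] at hmm
        exact h3 hmm.symm
      have h7 := hbig h1
      omega
    · have h9 : 9 * m' ≤ m := by
        calc 9 * m' = 3 ^ 2 * m' := by norm_num
          _ ≤ 3 ^ j * m' := Nat.mul_le_mul_right _ (Nat.pow_le_pow_right (by norm_num) hj2)
          _ = m := hmm
      omega

/-- The quantity `K = 2^om(q) * (q / qs q)` satisfies `K^2 ≤ (32/15) q` for `q ≠ 24`.  Let `q = 2^v m`, `m` odd, `ω' = ω(m)`;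
`v = 0`: `om = ω'`, `qs = q`, `K^2 = 4^ω' ≤ (4/3) m` (also for `m = 3`).  `v = 1`: the same `K`.  `v = 2`: `qs = q / 2`, `om = ω'`,
`K^2 = 4 * 4^ω' ≤ 4 (4/3) m = (4/3) q`.  `v ≥ 3`: `om = ω' + 1`, `qs = q / 2`, `K^2 = 16 * 4^ω'`; if `v ≥ 4`: `≤ 16 (4/3) m ≤ (4/3) q`;
if `v = 3`: `m ≠ 3`, `K^2 ≤ 16 (16/15) m = (32/15) q`. -/
theorem K_sq_le {q : ℕ} (hq : q ≠ 0) (h : q ≠ 24) :
    ((2 : ℝ) ^ (om q) * (q / qs q)) ^ 2 ≤ 32 / 15 * q := by
  set v := q.factorization 2 with hv
  set m := q / 2 ^ v with hm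
  have hmm : 2 ^ v * m = q := Nat.ordProj_mul_ordCompl_eq_self q 2
  have hm0 : m ≠ 0 := by
    intro h0
    rw [h0, mul_zero] at hmm
    exact hq hmm.symm
  have hodd : Odd m := by
    have := (Nat.coprime_ordCompl Nat.prime_two hq).symm
    exact Nat.coprime_two_right.1 this
  have h2m : 2 ∉ m.primeFactors := by
    intro h2
    have := Nat.dvd_of_mem_primeFactors h2
    rw [← even_iff_two_dvd] at this
    exact (Nat.not_even_iff_odd.2 hodd) this
  have hgen : 3 * 4 ^ m.primeFactors.card ≤ 4 * m := by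
    by_cases hm3 : m = 3
    · rw [hm3]
      have : (3 : ℕ).primeFactors = {3} := Nat.Prime.primeFactors Nat.prime_three
      rw [this]
      simp
    · have := four_pow_le hodd hm3
      omega
  have hpf : q.primeFactors.filter (fun p => p ≠ 2) = m.primeFactors := by
    ext p
    simp only [Finset.mem_filter, Nat.mem_primeFactors]
    constructor
    · rintro ⟨⟨hp, hpq, _⟩, hp2⟩
      refine ⟨hp, ?_, hm0⟩
      rw [← hmm] at hpq
      rcases hp.dvd_mul.1 hpq with h1 | h1
      · exfalso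
        have := hp.dvd_of_dvd_pow h1
        exact hp2 ((Nat.prime_dvd_prime_iff_eq hp Nat.prime_two).1 this)
      · exact h1
    · rintro ⟨hp, hpm, _⟩
      refine ⟨⟨hp, ?_, hq⟩, ?_⟩
      · rw [← hmm]; exact Dvd.dvd.mul_left hpm _
      · rintro rfl
        exact h2m (Nat.mem_primeFactors.2 ⟨hp, hpm, hm0⟩)
  have hqr : (0 : ℝ) < q := by exact_mod_cast Nat.pos_of_ne_zero hq
  have hmr : (0 : ℝ) < m := by exact_mod_cast Nat.pos_of_ne_zero hm0
  have hqsr : (0 : ℝ) < qs q := by exact_mod_cast qs_pos q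
  have hqm : (q : ℝ) = 2 ^ v * m := by exact_mod_cast hmm.symm
  have hgenr : 3 * (4 : ℝ) ^ m.primeFactors.card ≤ 4 * m := by exact_mod_cast hgen
  have h24 : ∀ k : ℕ, ((2 : ℝ) ^ k) ^ 2 = 4 ^ k := by
    intro k
    rw [← pow_mul, mul_comm, pow_mul]
    norm_num
  rcases Nat.lt_or_ge v 3 with hv3 | hv3
  · have hom : om q = m.primeFactors.card := by
      rw [om, ← hpf]
      congr 1
      apply Finset.filter_congr
      intro p _
      constructor
      · rintro (h1 | h1)
        · exact h1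
        · omega
      · intro h1; exact Or.inl h1
    rw [hom]
    rcases Nat.lt_or_ge v 2 with hv2 | hv2
    · have hqs : qs q = q := qs_eq_self hq (by omega)
      rw [hqs, div_self hqr.ne', mul_one, h24]
      have h1 : (m : ℝ) ≤ q := by
        rw [hqm]
        have : (1 : ℝ) ≤ 2 ^ v := one_le_pow₀ (by norm_num)
        nlinarith
      linarith
    · have hv' : v = 2 := by omega
      have hqs : (2 : ℝ) * qs q = q := by exact_mod_cast two_mul_qs (by omega)
      have hdiv : (q : ℝ) / qs q = 2 := by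
        rw [← hqs]; field_simp
      rw [hdiv, mul_pow, h24, hqm, hv']
      nlinarith
  · have hqs : (2 : ℝ) * qs q = q := by exact_mod_cast two_mul_qs (by omega)
    have hdiv : (q : ℝ) / qs q = 2 := by
      rw [← hqs]; field_simp
    have hom : om q = m.primeFactors.card + 1 := by
      have h2q : 2 ∈ q.primeFactors := by
        rw [Nat.mem_primeFactors]
        refine ⟨Nat.prime_two, ?_, hq⟩
        rw [← hmm]
        exact Dvd.dvd.mul_right (dvd_pow_self 2 (by omega)) m
      have h1 : (q.primeFactors.filter fun p => p ≠ 2 ∨ 3 ≤ q.factorization 2) =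
          q.primeFactors := by
        apply Finset.filter_true_of_mem
        intro p _
        exact Or.inr hv3
      have h2 : q.primeFactors = insert 2 m.primeFactors := by
        rw [← hpf]
        ext p
        simp only [Finset.mem_insert, Finset.mem_filter]
        constructor
        · intro hp
          by_cases h2 : p = 2
          · exact Or.inl h2
          · exact Or.inr ⟨hp, h2⟩
        · rintro (rfl | ⟨hp, _⟩)
          · exact h2q
          · exact hp
      rw [om, h1, h2, Finset.card_insert_of_notMem h2m]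
    rw [hdiv, hom, mul_pow, h24, pow_succ]
    rcases Nat.lt_or_ge v 4 with hv4 | hv4
    · have hv' : v = 3 := by omega
      have hm3 : m ≠ 3 := by
        intro h3
        apply h
        rw [← hmm, hv', h3]
        norm_num
      have h4 := four_pow_le hodd hm3
      have h4r : 15 * (4 : ℝ) ^ m.primeFactors.card ≤ 16 * m := by exact_mod_cast h4
      rw [hqm, hv']
      nlinarith
    · have h1 : (16 : ℝ) ≤ 2 ^ v := by
        calc (16 : ℝ) = 2 ^ 4 := by norm_num
          _ ≤ 2 ^ v := pow_le_pow_right₀ (by norm_num) hv4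
      rw [hqm]
      nlinarith

/-- Small moduli: `card_le_classes`: `#S ≤ 2^om + K sqrt (N / q) ≤ K (1 + sqrt (N / q)) ≤ sqrt (32/15) (sqrt q + sqrt N)` and
`sqrt q ≤ sqrt N / 100`, `sqrt (32/15) * 1.01 ≤ 1.48` (`(1.48 / 1.01)^2 = 2.147 > 32 / 15`). -/
theorem card_le_small {q N : ℕ} {S : Finset ℕ} (hq : q ≠ 0) (h24 : q ≠ 24) (hN : 10000 * q ≤ N)
    (hS : Good q N S) : (S.card : ℝ) ≤ 1.48 * Real.sqrt N := by
  have h1 := card_le_classes hq hS
  have hK := K_sq_le hq h24
  have hqr : (0 : ℝ) < q := by exact_mod_cast Nat.pos_of_ne_zero hq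
  have hqsr : (0 : ℝ) < qs q := by exact_mod_cast qs_pos q
  have hqsle : (qs q : ℝ) ≤ q := by
    exact_mod_cast Nat.le_of_dvd (Nat.pos_of_ne_zero hq) (qs_dvd hq)
  set K : ℝ := 2 ^ (om q) * (q / qs q) with hKdef
  have hratio : 1 ≤ (q : ℝ) / qs q := by
    rw [le_div_iff₀ hqsr]; linarith
  have h2K : (2 : ℝ) ^ (om q) ≤ K := by
    rw [hKdef]
    have : (0 : ℝ) < 2 ^ (om q) := by positivity
    nlinarith
  have hK0 : 0 < K := lt_of_lt_of_le (by positivity) h2K
  have hKle : K ≤ Real.sqrt (32 / 15 * q) := Real.le_sqrt_of_sq_le hK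
  set A := Real.sqrt q with hA
  set B := Real.sqrt N with hB
  have hA0 : 0 < A := Real.sqrt_pos.2 hqr
  have hB0 : 0 ≤ B := Real.sqrt_nonneg _
  have hAA : A * A = q := Real.mul_self_sqrt hqr.le
  have hBB : B * B = N := Real.mul_self_sqrt (Nat.cast_nonneg N)
  have hAB : 100 * A ≤ B := by
    apply Real.le_sqrt_of_sq_le
    have : (10000 : ℝ) * q ≤ N := by exact_mod_cast hN
    nlinarith
  have hsqrt : Real.sqrt ((q : ℝ) * N) = A * B := Real.sqrt_mul hqr.le _
  set s := Real.sqrt (32 / 15) with hs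
  have hs0 : 0 ≤ s := Real.sqrt_nonneg _
  have hss : s * s = 32 / 15 := Real.mul_self_sqrt (by norm_num)
  have hKA : K ≤ s * A := by
    have h3 : Real.sqrt (32 / 15 * q) = s * A := Real.sqrt_mul (by norm_num) _
    rwa [h3] at hKle
  have hs1 : s * (1 + 1 / 100) ≤ 1.48 := by
    have h3 : s ≤ 1.48 / 1.01 := by
      apply Real.sqrt_le_iff.2
      constructor
      · norm_num
      · norm_num
    have : s * (1 + 1 / 100) ≤ 1.48 / 1.01 * (1 + 1 / 100) := by
      apply mul_le_mul_of_nonneg_right h3 (by norm_num)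
    linarith [this, show (1.48 : ℝ) / 1.01 * (1 + 1 / 100) = 1.48 by norm_num]
  calc (S.card : ℝ) ≤ 2 ^ (om q) * (1 + Real.sqrt (q * N) / qs q) := h1
    _ = 2 ^ (om q) + K / A * B := by
        rw [hsqrt, hKdef, ← hAA]
        field_simp
    _ ≤ K + K / A * B := by linarith
    _ ≤ s * A + s * B := by
        have h4 : K / A ≤ s := by
          rw [div_le_iff₀ hA0]; exact hKA
        have h5 : K / A * B ≤ s * B := mul_le_mul_of_nonneg_right h4 hB0
        linarith
    _ ≤ s * (1 + 1 / 100) * B := by nlinarith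
    _ ≤ 1.48 * B := mul_le_mul_of_nonneg_right hs1 hB0

end Pool.Agent.Lib.MP_2c6f70_nt
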