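import Pool.Agent.Lib.MP_2c6f70_nt.Abs
import Pool.Agent.Lib.MP_2c6f70_nt.Small
import Pool.Agent.Lib.MP_2c6f70_nt.Lower

/-!
# JOB AsyA: first range for `ω(q)` when `q > N / 10000`

`D = ω(q) = q.primeFactors.card`.  `WW q = log (qs q) ≥ log q - log 2` (`WW_eq`, `le_two_mul_qs`), so `WW q ≥ (D / 4) log D` if `D ≥ 21` (`log_ge`).
-/

set_option autoImplicit false

namespace Pool.Agent.Lib.MP_2c6f70_nt

theorem WW_ge {q : ℕ} (hq : q ≠ 0) (hD : 21 ≤ q.primeFactors.card) :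
    (q.primeFactors.card : ℝ) / 4 * Real.log q.primeFactors.card ≤ WW q := by
  refine (log_ge hq hD).trans ?_
  rw [WW_eq]
  have h1 : (q : ℝ) ≤ 2 * (qs q : ℝ) := by exact_mod_cast le_two_mul_qs hq
  have hq0 : (0 : ℝ) < q := by exact_mod_cast Nat.pos_of_ne_zero hq
  have hqs : (0 : ℝ) < (qs q : ℝ) := by exact_mod_cast qs_pos q
  have h2 := Real.log_le_log hq0 h1
  rw [Real.log_mul two_ne_zero hqs.ne'] at h2
  linarith

/-- Range 1: `D ≤ (1/4) log_2 N`, i.e. `16 ^ D ≤ N`.  `card_le_trivial`: `#S ≤ 2^D (1 + 200)`, `2^D ≤ N^(1/4)`, `201 N^(1/4) < sqrt N` if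
`N > 201^4`. -/
theorem range1 {q N : ℕ} {S : Finset ℕ} (hq : q ≠ 0) (hqN : N < 10000 * q) (hS : Good q N S)
    (hD : 16 ^ q.primeFactors.card ≤ N) (hN : 201 ^ 4 < N) : (S.card : ℝ) < Real.sqrt N := by
  have hq0 : (0 : ℝ) < q := by exact_mod_cast Nat.pos_of_ne_zero hq
  have h1 := card_le_trivial hq hS
  have h2 : Real.sqrt (N / q) ≤ 100 := by
    rw [Real.sqrt_le_left (by norm_num), div_le_iff₀ hq0]
    have : (N : ℝ) < 10000 * q := by exact_mod_cast hqN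
    nlinarith
  have h3 : (S.card : ℝ) ≤ 2 ^ q.primeFactors.card * 201 := by
    refine h1.trans (mul_le_mul_of_nonneg_left (by linarith) (by positivity))
  refine lt_of_le_of_lt h3 ?_
  have hD' : ((16 : ℝ)) ^ q.primeFactors.card ≤ N := by exact_mod_cast hD
  have hN' : ((201 : ℝ)) ^ 4 < N := by exact_mod_cast hN
  generalize q.primeFactors.card = D at *
  have h4 : ((4 : ℝ)) ^ D ≤ Real.sqrt N := by
    apply Real.le_sqrt_of_sq_le
    rw [← pow_mul, mul_comm D 2, pow_mul]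
    norm_num
    exact hD'
  have h5 : ((201 : ℝ)) ^ 2 < Real.sqrt N := by
    apply Real.lt_sqrt_of_sq_lt
    rw [← pow_mul]
    exact hN'
  apply Real.lt_sqrt_of_sq_lt
  have h6 : (0 : ℝ) ≤ Real.sqrt N := Real.sqrt_nonneg _
  calc ((2 : ℝ) ^ D * 201) ^ 2 = 4 ^ D * 201 ^ 2 := by
        rw [mul_pow, ← pow_mul, mul_comm D 2, pow_mul]
        norm_num
    _ < 4 ^ D * Real.sqrt N := mul_lt_mul_of_pos_left h5 (by positivity)
    _ ≤ Real.sqrt N * Real.sqrt N := mul_le_mul_of_nonneg_right h4 h6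
    _ = N := Real.mul_self_sqrt (Nat.cast_nonneg N)

end Pool.Agent.Lib.MP_2c6f70_nt
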