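import Pool.Agent.Lib.MP_2c6f70_nt.AsyA

/-!
# JOB AsyB: second range for `ω(q)`
-/

set_option autoImplicit false

namespace Pool.Agent.Lib.MP_2c6f70_nt

/-- Range 2: `N < 16^D`, `D^4 ≤ N`, `D` large.  `card_le_pigeon` with `L = log (2 N)` and `r` = integer part of `8 L / log D` plus 1:
`2 L D ≤ r WW` because `r ≥ 8 L / log D` and `WW ≥ (D/4) log D`.  `r ≤ D`: `L ≤ D log 16 + log 2 ≤ 3 D`, so `8 L / log D + 1 ≤ 24 D / log D + 1 ≤ D`
for `log D ≥ 50`.  `#S ≤ 2^r (1 + 2 D) ≤ 2 * 2^(8 L / log D) * 3 D ≤ 6 D exp (8 L / log D)`, and `8 L / log D ≤ (8/50) L ≤ (1/5) log N`;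
`D ≤ N^(1/4)`; so `#S ≤ 6 N^(9/20) < sqrt N` for large `N`. -/
theorem range2 : ∃ N₀ : ℕ, ∀ N ≥ N₀, ∀ (q : ℕ) (S : Finset ℕ), q ≠ 0 → Good q N S →
    N < 16 ^ q.primeFactors.card → q.primeFactors.card ^ 4 ≤ N → (S.card : ℝ) < Real.sqrt N := by
  obtain ⟨K, hK⟩ := exists_nat_ge (Real.exp 50)
  refine ⟨16 ^ K, ?_⟩
  intro N hN q S hq hS hD1 hD2
  set D := q.primeFactors.card with hD
  have hKD : K < D := by
    have h1 : 16 ^ K < 16 ^ D := lt_of_le_of_lt hN hD1
    exact (Nat.pow_lt_pow_iff_right (by norm_num)).mp h1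
  have hDexp : Real.exp 50 ≤ (D : ℝ) := by
    refine hK.trans ?_
    exact_mod_cast hKD.le
  have h51 : (51 : ℝ) ≤ D := by
    have := Real.add_one_le_exp (50 : ℝ)
    linarith
  have hDpos : (0 : ℝ) < D := by linarith
  have hlogD : 50 ≤ Real.log D := by
    rw [Real.le_log_iff_exp_le hDpos]
    exact hDexp
  have hD21 : 21 ≤ D := by
    have : (21 : ℝ) ≤ D := by linarith
    exact_mod_cast this
  have hN1 : 1 ≤ N := le_trans Nat.one_le_two_pow (le_trans (Nat.pow_le_pow_left (by norm_num) K) hN)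
  have hNpos : (0 : ℝ) < N := by exact_mod_cast hN1
  have hlog2 : Real.log 2 ≤ 0.7 := by
    have := Real.log_two_lt_d9
    linarith
  have hlog2' : 0 < Real.log 2 := Real.log_pos (by norm_num)
  have hlog16 : Real.log 16 = 4 * Real.log 2 := by
    rw [show (16 : ℝ) = 2 ^ 4 by norm_num, Real.log_pow]
    norm_num
  have hLN : Real.log (2 * N) = Real.log 2 + Real.log N := Real.log_mul (by norm_num) hNpos.ne'
  have hlogN : Real.log N ≤ D * (4 * Real.log 2) := by
    rw [← hlog16, ← Real.log_pow]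
    refine Real.log_le_log hNpos ?_
    have : (N : ℝ) < ((16 ^ D : ℕ) : ℝ) := by exact_mod_cast hD1
    push_cast at this
    exact this.le
  have hlogN' : 14 ≤ Real.log N := by
    have h4 : (4 : ℝ) * Real.log D ≤ Real.log N := by
      have h5 : ((D : ℝ)) ^ 4 ≤ N := by exact_mod_cast hD2
      have h6 := Real.log_le_log (by positivity) h5
      rw [Real.log_pow] at h6
      exact_mod_cast h6
    linarith
  have h4 : (4 : ℝ) * Real.log D ≤ Real.log N := by
    have h5 : ((D : ℝ)) ^ 4 ≤ N := by exact_mod_cast hD2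
    have h6 := Real.log_le_log (by positivity) h5
    rw [Real.log_pow] at h6
    exact_mod_cast h6
  set L := Real.log (2 * N) with hL
  have hLpos : 0 < L := by rw [hLN]; linarith
  have hL3 : L ≤ 3 * D := by
    rw [hLN]
    nlinarith
  have hq0 : 0 ≤ 8 * L / Real.log D := by positivity
  set r := ⌊8 * L / Real.log D⌋₊ + 1 with hr
  have hr1 : 1 ≤ r := by omega
  have hrge : 8 * L / Real.log D ≤ r := by
    rw [hr]
    push_cast
    exact (Nat.lt_floor_add_one _).le
  have hrle : (r : ℝ) ≤ 8 * L / Real.log D + 1 := by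
    rw [hr]
    push_cast
    have := Nat.floor_le hq0
    linarith
  have h50 : 8 * L / Real.log D ≤ 8 * L / 50 := by
    exact div_le_div_of_nonneg_left (by positivity) (by norm_num) hlogD
  have hrD : r ≤ D := by
    have : (r : ℝ) ≤ D := by
      have h7 : 8 * L / 50 ≤ 8 * (3 * D) / 50 := by
        refine div_le_div_of_nonneg_right ?_ (by norm_num)
        linarith
      linarith
    exact_mod_cast this
  have hWW := WW_ge hq (hD ▸ hD21)
  rw [← hD] at hWW
  have hrL : 2 * L * (D : ℝ) ≤ r * WW q := by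
    have h8 : 2 * L * (D : ℝ) = (8 * L / Real.log D) * (D / 4 * Real.log D) := by
      field_simp
      ring
    rw [h8]
    exact mul_le_mul hrge hWW (by positivity) (by positivity)
  have hmain := card_le_pigeon hq hN1 hS r hr1 (hD ▸ hrD) (by rw [← hD, ← hL]; exact hrL)
  rw [← hD] at hmain
  -- estimate
  have h2r : (2 : ℝ) ^ r ≤ Real.exp (0.112 * L + 0.7) := by
    have e1 : (2 : ℝ) ^ r = Real.exp (r * Real.log 2) := by
      rw [mul_comm, Real.exp_mul, Real.exp_log (by norm_num), Real.rpow_natCast]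
    rw [e1]
    refine Real.exp_le_exp.mpr ?_
    have h9 : (r : ℝ) ≤ 8 * L / 50 + 1 := by linarith
    have h10 : (0 : ℝ) ≤ 8 * L / 50 + 1 := by positivity
    calc (r : ℝ) * Real.log 2 ≤ (8 * L / 50 + 1) * 0.7 :=
          mul_le_mul h9 hlog2 hlog2'.le h10
      _ = 0.112 * L + 0.7 := by ring
  have h3 : (1 + 2 * (D : ℝ)) ≤ Real.exp (1.1 + Real.log N / 4) := by
    have e3 : (3 : ℝ) ≤ Real.exp 1.1 := by
      have h11 := Real.exp_one_gt_d9
      have h12 : Real.exp 1.1 = Real.exp 1 * Real.exp 0.1 := by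
        rw [← Real.exp_add]
        norm_num
      have h13 := Real.add_one_le_exp (0.1 : ℝ)
      have h14 : (0.105 : ℝ) + 1 ≤ Real.exp 0.1 := by
        have := Real.quadratic_le_exp_of_nonneg (x := (0.1 : ℝ)) (by norm_num)
        norm_num at this ⊢
        linarith
      rw [h12]
      nlinarith [Real.exp_pos (0.1 : ℝ)]
    rw [Real.exp_add]
    have e4 : (D : ℝ) ≤ Real.exp (Real.log N / 4) := by
      rw [← Real.log_le_iff_le_exp hDpos]
      linarith
    nlinarith [Real.exp_pos (Real.log N / 4)]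
  have hc : (S.card : ℝ) ≤ Real.exp (0.112 * L + 0.7 + (1.1 + Real.log N / 4)) := by
    rw [Real.exp_add]
    exact hmain.trans (mul_le_mul h2r h3 (by positivity) (Real.exp_pos _).le)
  refine Real.lt_sqrt_of_sq_lt ?_
  calc (S.card : ℝ) ^ 2 ≤ (Real.exp (0.112 * L + 0.7 + (1.1 + Real.log N / 4))) ^ 2 :=
        pow_le_pow_left₀ (by positivity) hc 2
    _ = Real.exp (2 * (0.112 * L + 0.7 + (1.1 + Real.log N / 4))) := by
        rw [← Real.exp_nat_mul]
        norm_num
    _ < Real.exp (Real.log N) := by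
        refine Real.exp_lt_exp.mpr ?_
        rw [hLN]
        linarith
    _ = N := Real.exp_log hNpos

end Pool.Agent.Lib.MP_2c6f70_nt
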