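import Pool.Agent.Lib.MP_2c6f70_nt.AsyA

/-!
# JOB AsyC: third range for `ω(q)`
-/

set_option autoImplicit false

namespace Pool.Agent.Lib.MP_2c6f70_nt

/-- Range 3: `N < D^4`.  Suppose `#S > (1 + ε) D`, so `T = #S ≥ D + 1`.  `card_le_trace`, `WW ≥ (D/4) log D ≥ (D/16) log N`,
`log (5 N / 2) ≤ 2 log N`: `8 (T-1) (log (5N/2) / WW)^2 ≤ 8192 (T - 1) / D^2`, so `T ≤ D + 8192 T / D + 2`, and
`T (1 - 8192 / D) ≤ D + 2` contradicts `T > (1 + ε) D` for `D` large (`D > N^(1/4)`). -/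
theorem range3 (ε : ℝ) (hε : 0 < ε) : ∃ N₀ : ℕ, ∀ N ≥ N₀, ∀ (q : ℕ) (S : Finset ℕ), q ≠ 0 →
    Good q N S → N < q.primeFactors.card ^ 4 → (S.card : ℝ) ≤ (1 + ε) * q.primeFactors.card := by
  obtain ⟨K, hK⟩ := exists_nat_gt ((2 + 8192 * (1 + ε)) / ε + 9000)
  refine ⟨K ^ 4, fun N hN q S hq hS hD => ?_⟩
  have hpos : 0 < (2 + 8192 * (1 + ε)) / ε := by positivity
  have hK9 : (9000 : ℝ) < K := by linarith
  have hK9' : 9000 < K := by exact_mod_cast hK9
  set D : ℕ := q.primeFactors.card with hDdef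
  have hKD : K < D := by
    have h1 : K ^ 4 < D ^ 4 := lt_of_le_of_lt hN hD
    exact lt_of_pow_lt_pow_left₀ 4 (Nat.zero_le _) h1
  have hD9 : (9000 : ℝ) < D := lt_trans hK9 (by exact_mod_cast hKD)
  have hDe : 2 + 8192 * (1 + ε) < ε * D := by
    have h1 : (2 + 8192 * (1 + ε)) / ε < D := by
      have : (K : ℝ) < D := by exact_mod_cast hKD
      linarith
    rw [div_lt_iff₀ hε] at h1
    linarith
  by_contra hlt
  have hlt' : (1 + ε) * D < (S.card : ℝ) := not_le.mp hlt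
  have hTD : (D : ℝ) < S.card := by
    have : 0 < ε * D := by positivity
    linarith
  have hTD' : D + 1 ≤ S.card := by exact_mod_cast hTD
  have hTD1 : (D : ℝ) ≤ (S.card : ℝ) - 1 := by
    have : ((D + 1 : ℕ) : ℝ) ≤ S.card := by exact_mod_cast hTD'
    push_cast at this
    linarith
  have hT2 : 2 ≤ S.card := by omega
  have hq1 : 1 < q := by
    by_contra h
    have h1 : q = 1 := by omega
    rw [h1] at hDdef
    simp at hDdef
    omega
  have hN6 : 6 ≤ N := by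
    have h1 : 9000 ^ 4 ≤ K ^ 4 := Nat.pow_le_pow_left hK9'.le 4
    have h2 : (6 : ℕ) ≤ 9000 ^ 4 := by norm_num
    omega
  have hNR : (6 : ℝ) ≤ N := by exact_mod_cast hN6
  have htr := card_le_trace hq1 hN6 hS hT2
  rw [← hDdef] at htr
  have hWW : (D : ℝ) / 4 * Real.log D ≤ WW q := WW_ge hq (by omega)
  have hD0 : (0 : ℝ) < D := by linarith
  have hlogD : 0 < Real.log D := Real.log_pos (by linarith)
  have hlogN : Real.log N ≤ 4 * Real.log D := by
    have h1 : (N : ℝ) ≤ (D : ℝ) ^ 4 := by exact_mod_cast hD.le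
    have h2 := Real.log_le_log (by linarith) h1
    rwa [Real.log_pow] at h2
  have hlog1 : Real.log (5 / 2 * N) ≤ 8 * Real.log D := by
    rw [Real.log_mul (by norm_num) (by linarith)]
    have h1 : Real.log (5 / 2) ≤ Real.log N := Real.log_le_log (by norm_num) (by linarith)
    linarith
  have hlog0 : 0 ≤ Real.log (5 / 2 * N) := Real.log_nonneg (by linarith)
  have hWW0 : 0 < WW q := lt_of_lt_of_le (by positivity) hWW
  have hratio : Real.log (5 / 2 * N) / WW q ≤ 32 / D := by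
    rw [div_le_div_iff₀ hWW0 hD0]
    have h1 : Real.log (5 / 2 * N) * D ≤ 8 * Real.log D * D :=
      mul_le_mul_of_nonneg_right hlog1 hD0.le
    have h2 : 8 * Real.log D * D = 32 * ((D : ℝ) / 4 * Real.log D) := by ring
    rw [h2] at h1
    exact h1.trans (mul_le_mul_of_nonneg_left hWW (by norm_num))
  have hsq : (Real.log (5 / 2 * N) / WW q) ^ 2 ≤ (32 / D) ^ 2 :=
    pow_le_pow_left₀ (div_nonneg hlog0 hWW0.le) hratio 2
  have hT1 : 0 < (S.card : ℝ) - 1 := by linarith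
  have h3 : 8 * ((S.card : ℝ) - 1) * (Real.log (5 / 2 * N) / WW q) ^ 2 ≤
      8 * ((S.card : ℝ) - 1) * (32 / D) ^ 2 :=
    mul_le_mul_of_nonneg_left hsq (by positivity)
  have h4 : 2 / ((S.card : ℝ) - 1) ≤ 2 / D := div_le_div_of_nonneg_left (by norm_num) hD0 hTD1
  have h5 : (S.card : ℝ) ≤ D * (1 + 8 * ((S.card : ℝ) - 1) * (32 / D) ^ 2 + 2 / D) :=
    htr.trans (mul_le_mul_of_nonneg_left (by linarith) hD0.le)
  have h6 : (D : ℝ) * (1 + 8 * ((S.card : ℝ) - 1) * (32 / D) ^ 2 + 2 / D) =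
      D + 8192 * ((S.card : ℝ) - 1) / D + 2 := by
    field_simp
    ring
  rw [h6] at h5
  have h7 : 8192 * ((S.card : ℝ) - 1) / D ≤ 8192 * (S.card : ℝ) / D := by
    apply div_le_div_of_nonneg_right _ hD0.le
    linarith
  have h8 : (S.card : ℝ) * D ≤ D * D + 8192 * S.card + 2 * D := by
    have h9 : (S.card : ℝ) ≤ D + 8192 * (S.card : ℝ) / D + 2 := by linarith
    have h10 := mul_le_mul_of_nonneg_right h9 hD0.le
    have h11 : (D + 8192 * (S.card : ℝ) / D + 2) * D = D * D + 8192 * S.card + 2 * D := by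
      field_simp
    rwa [h11] at h10
  -- `S.card * (D - 8192) ≤ D * D + 2 D`
  have h12 : (1 + ε) * D * (D - 8192) ≤ (S.card : ℝ) * (D - 8192) :=
    mul_le_mul_of_nonneg_right hlt'.le (by linarith)
  nlinarith [mul_lt_mul_of_pos_right hDe hD0]

end Pool.Agent.Lib.MP_2c6f70_nt
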