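import Pool.Agent.Lib.MP_2c6f70_nt.Sg

/-!
# JOB Cls: residue classes
-/

set_option autoImplicit false

namespace Pool.Agent.Lib.MP_2c6f70_nt

/-- Elements of a good set which are congruent modulo `Q`: if there are `m` of them, the largest minus the smallest is at
least `(m - 1) Q`, and its square is at most `x_max^2 - x_min^2 ≤ q N`.  (Induction on the size or: the map
`x ↦ (x - x_min) / Q` is injective into `range (b + 1)`, `b = (x_max - x_min) / Q`.) -/
theorem card_class_le {q N Q : ℕ} {S : Finset ℕ} (hQ : 0 < Q) (hS : Good q N S)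
    (h : ∀ x ∈ S, ∀ y ∈ S, (Q : ℤ) ∣ (x : ℤ) - y) :
    (S.card : ℝ) ≤ 1 + Real.sqrt (q * N) / Q := by
  classical
  rcases S.eq_empty_or_nonempty with he | hne
  · subst he
    simp only [Finset.card_empty, Nat.cast_zero]
    positivity
  set m := S.min' hne with hmdef
  set M := S.max' hne with hMdef
  have hm : m ∈ S := S.min'_mem hne
  have hM : M ∈ S := S.max'_mem hne
  have hmle : ∀ x ∈ S, m ≤ x := fun x hx => S.min'_le x hx
  have hleM : ∀ x ∈ S, x ≤ M := fun x hx => S.le_max' x hx
  have hdv : ∀ x ∈ S, Q ∣ x - m := by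
    intro x hx
    have h1 := h x hx m hm
    rw [← Nat.cast_sub (hmle x hx)] at h1
    exact_mod_cast h1
  set b := (M - m) / Q with hb
  have hcard : S.card ≤ b + 1 := by
    have h1 : S.card ≤ (Finset.range (b + 1)).card := by
      apply Finset.card_le_card_of_injOn (fun x => (x - m) / Q)
      · intro x hx
        have hx' : x ∈ S := hx
        simp only [Finset.coe_range, Set.mem_Iio]
        exact Nat.lt_succ_of_le (Nat.div_le_div_right (Nat.sub_le_sub_right (hleM x hx') m))
      · intro x hx y hy hxy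
        have hx' : x ∈ S := hx
        have hy' : y ∈ S := hy
        have hxy' : (x - m) / Q = (y - m) / Q := hxy
        have e1 : Q * ((x - m) / Q) = x - m := Nat.mul_div_cancel' (hdv x hx')
        have e2 : Q * ((y - m) / Q) = y - m := Nat.mul_div_cancel' (hdv y hy')
        have e3 : x - m = y - m := by rw [← e1, ← e2, hxy']
        have := hmle x hx'
        have := hmle y hy'
        omega
    simpa using h1
  have hmM : m ≤ M := hmle M hM
  obtain ⟨d, hd, hdN⟩ := hS.2 m hm M hM hmM
  have hQr : (0 : ℝ) < Q := by exact_mod_cast hQ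
  have hbr : (b : ℝ) ≤ ((M : ℝ) - m) / Q := by
    have h1 : ((b : ℕ) : ℝ) ≤ ((M - m : ℕ) : ℝ) / Q := Nat.cast_div_le
    rwa [Nat.cast_sub hmM] at h1
  have hmMr : (m : ℝ) ≤ M := by exact_mod_cast hmM
  have hm0 : (0 : ℝ) ≤ m := Nat.cast_nonneg m
  have hsq : ((M : ℝ) - m) ^ 2 ≤ q * N := by
    have h1 : (M : ℝ) ^ 2 = (m : ℝ) ^ 2 + q * d := by exact_mod_cast hd
    have h2 : (q : ℝ) * d ≤ q * N := by
      have : (d : ℝ) ≤ N := by exact_mod_cast hdN.le
      exact mul_le_mul_of_nonneg_left this (Nat.cast_nonneg q)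
    nlinarith [mul_nonneg hm0 (sub_nonneg.2 hmMr)]
  have hle : (M : ℝ) - m ≤ Real.sqrt (q * N) := Real.le_sqrt_of_sq_le hsq
  have h3 : ((M : ℝ) - m) / Q ≤ Real.sqrt (q * N) / Q := by
    gcongr
  have h4 : (S.card : ℝ) ≤ b + 1 := by exact_mod_cast hcard
  linarith

/-- The number of odd prime factors of `q`, plus `1` if `8 ∣ q`. -/
def om (q : ℕ) : ℕ := (q.primeFactors.filter fun p => p ≠ 2 ∨ 3 ≤ q.factorization 2).card

/-- Number of classes modulo `qs q`.  For `q` with exponent of `2` at most `2` the sign at `2` is constant on `S` (`md = 2` and all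
elements of `S` are odd), so the sign vector of `x ∈ S` is determined by its values at the primes counted by `om`: at most
`2 ^ om q` sign vectors.  Elements with equal sign vector are congruent modulo `qs q` (`dvd_sub_of_sg_eq`, `prod_md_dvd`): `card_class_le`
with `Q = qs q` for each fibre (a subset of a good set is good). -/
theorem card_le_classes {q N : ℕ} {S : Finset ℕ} (hq : q ≠ 0) (hS : Good q N S) :
    (S.card : ℝ) ≤ 2 ^ (om q) * (1 + Real.sqrt (q * N) / qs q) := by
  classical
  rcases S.eq_empty_or_nonempty with he | hne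
  · subst he
    simp only [Finset.card_empty, Nat.cast_zero]
    positivity
  obtain ⟨z, hz⟩ := hne
  set P' := q.primeFactors.filter fun p => p ≠ 2 ∨ 3 ≤ q.factorization 2 with hP'
  have hqs : 0 < qs q := qs_pos q
  set f : ℕ → Finset ℕ := fun x => P'.filter fun p => sg q z p x = 1 with hf
  have hmaps : ∀ x ∈ S, f x ∈ P'.powerset := fun x _ =>
    Finset.mem_powerset.2 (Finset.filter_subset _ _)
  have hfib : ∀ T ∈ P'.powerset, ((S.filter fun x => f x = T).card : ℝ) ≤
      1 + Real.sqrt (q * N) / qs q := by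
    intro T _
    have hgood : Good q N (S.filter fun x => f x = T) := by
      refine ⟨fun x hx => hS.1 x (Finset.mem_filter.1 hx).1, fun x hx y hy hxy =>
        hS.2 x (Finset.mem_filter.1 hx).1 y (Finset.mem_filter.1 hy).1 hxy⟩
    refine card_class_le hqs hgood ?_
    intro x hx y hy
    obtain ⟨hxS, hxT⟩ := Finset.mem_filter.1 hx
    obtain ⟨hyS, hyT⟩ := Finset.mem_filter.1 hy
    have key : ∀ p ∈ q.primeFactors, (md q p : ℤ) ∣ (x : ℤ) - y := by
      intro p hp
      by_cases hpP : p ∈ P'
      · have hxy : f x = f y := by rw [hxT, hyT]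
        have h1 : sg q z p x = 1 ↔ sg q z p y = 1 := by
          have h2 : p ∈ f x ↔ p ∈ f y := by rw [hxy]
          simpa [hf, hpP] using h2
        have h3 : sg q z p x = sg q z p y := by
          rcases sg_eq_or q z p x with hx1 | hx1 <;> rcases sg_eq_or q z p y with hy1 | hy1
          · rw [hx1, hy1]
          · rw [h1.1 hx1, hx1]
          · rw [h1.2 hy1, hy1]
          · rw [hx1, hy1]
        exact dvd_sub_of_sg_eq hS hxS hyS hz hp h3
      · have h1 : p = 2 ∧ q.factorization 2 ≤ 2 := by
          rw [hP', Finset.mem_filter] at hpP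
          push Not at hpP
          have := hpP hp
          exact ⟨this.1, by omega⟩
        obtain ⟨rfl, hv⟩ := h1
        have hmd : md q 2 = 2 := by simp [md, hv]
        rw [hmd]
        have h2q : 2 ∣ q := Nat.dvd_of_mem_primeFactors hp
        have hxo : x % 2 = 1 := by
          have hc : x.Coprime 2 := Nat.Coprime.coprime_dvd_right h2q (hS.1 x hxS)
          rcases Nat.mod_two_eq_zero_or_one x with h0 | h0
          · exfalso
            have : 2 ∣ x := Nat.dvd_of_mod_eq_zero h0
            have h5 : 2 ∣ Nat.gcd x 2 := Nat.dvd_gcd this (dvd_refl 2)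
            rw [hc] at h5
            omega
          · exact h0
        have hyo : y % 2 = 1 := by
          have hc : y.Coprime 2 := Nat.Coprime.coprime_dvd_right h2q (hS.1 y hyS)
          rcases Nat.mod_two_eq_zero_or_one y with h0 | h0
          · exfalso
            have : 2 ∣ y := Nat.dvd_of_mod_eq_zero h0
            have h5 : 2 ∣ Nat.gcd y 2 := Nat.dvd_gcd this (dvd_refl 2)
            rw [hc] at h5
            omega
          · exact h0
        push_cast
        omega
    have h4 := prod_md_dvd q.primeFactors (Finset.Subset.refl _) ((x : ℤ) - y) key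
    exact h4
  have hsum : S.card = ∑ T ∈ P'.powerset, (S.filter fun x => f x = T).card :=
    Finset.card_eq_sum_card_fiberwise hmaps
  have hsumr : (S.card : ℝ) = ∑ T ∈ P'.powerset, ((S.filter fun x => f x = T).card : ℝ) := by
    rw [hsum]; push_cast; rfl
  rw [hsumr]
  calc ∑ T ∈ P'.powerset, ((S.filter fun x => f x = T).card : ℝ)
      ≤ ∑ _T ∈ P'.powerset, (1 + Real.sqrt (q * N) / qs q) := Finset.sum_le_sum hfib
    _ = 2 ^ (om q) * (1 + Real.sqrt (q * N) / qs q) := by
        rw [Finset.sum_const, Finset.card_powerset, nsmul_eq_mul]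
        push_cast
        rfl

/-- Trivial bound: `om q ≤ ω(q)`, `q ≤ 2 qs`, so `sqrt (q N) / qs ≤ 2 sqrt (N / q)`. -/
theorem card_le_trivial {q N : ℕ} {S : Finset ℕ} (hq : q ≠ 0) (hS : Good q N S) :
    (S.card : ℝ) ≤ 2 ^ q.primeFactors.card * (1 + 2 * Real.sqrt (N / q)) := by
  have h1 := card_le_classes hq hS
  have hom : om q ≤ q.primeFactors.card := Finset.card_filter_le _ _
  have hqr : (0 : ℝ) < q := by exact_mod_cast Nat.pos_of_ne_zero hq
  have hqs : (0 : ℝ) < qs q := by exact_mod_cast qs_pos q
  have hle : (q : ℝ) ≤ 2 * qs q := by exact_mod_cast le_two_mul_qs hq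
  have h2 : Real.sqrt (q * N) / qs q ≤ 2 * Real.sqrt (N / q) := by
    have h3 : Real.sqrt ((q : ℝ) * N) = q * Real.sqrt (N / q) := by
      have h4 : (q : ℝ) * N = q ^ 2 * (N / q) := by
        field_simp
      rw [h4, Real.sqrt_mul (by positivity), Real.sqrt_sq hqr.le]
    rw [h3, div_le_iff₀ hqs]
    have h5 := Real.sqrt_nonneg ((N : ℝ) / q)
    nlinarith
  have h0 : 0 ≤ Real.sqrt (q * N) / qs q := by positivity
  calc (S.card : ℝ) ≤ 2 ^ (om q) * (1 + Real.sqrt (q * N) / qs q) := h1
    _ ≤ 2 ^ q.primeFactors.card * (1 + 2 * Real.sqrt (N / q)) := by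
        apply mul_le_mul
        · exact pow_le_pow_right₀ (by norm_num) hom
        · linarith
        · linarith
        · positivity

end Pool.Agent.Lib.MP_2c6f70_nt
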