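import Mathlib

/-!
# Squares in arithmetic progressions: sign vectors

`Good q N S`: the elements of `S` are coprime to `q`, and for `x ≤ y` in `S` one has `y^2 = x^2 + q d` with
`d < N`.  `md q p` for a prime `p` dividing `q`: the power of `p` in `q` (for `p = 2`: half of it, if
the exponent is at least two, and `2` if it is one).  `qs q`: the product of the `md q p`.
`sg q z p x`: the sign of `x` at `p` with respect to the base point `z`.
`wt`: weights; `MM`: weighted correlation of the sign vectors of `x` and `y`; `WW`: sum of the weights.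
-/

set_option autoImplicit false

namespace Pool.Agent.Lib.MP_2c6f70_nt

/-- The set of square roots of the squares in a progression. -/
def Good (q N : ℕ) (S : Finset ℕ) : Prop :=
  (∀ x ∈ S, x.Coprime q) ∧ ∀ x ∈ S, ∀ y ∈ S, x ≤ y → ∃ d : ℕ, y ^ 2 = x ^ 2 + q * d ∧ d < N

/-- The modulus at `p`. -/
def md (q p : ℕ) : ℕ :=
  if p = 2 then (if q.factorization 2 ≤ 2 then 2 else 2 ^ (q.factorization 2 - 1))
  else p ^ q.factorization p

/-- The product of the moduli. -/
def qs (q : ℕ) : ℕ := ∏ p ∈ q.primeFactors, md q p

/-- The sign of `x` at `p`. -/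
noncomputable def sg (q z p x : ℕ) : ℝ :=
  open Classical in if ((md q p : ℤ) ∣ (x : ℤ) - z) then 1 else -1

/-- The weight of `p`. -/
noncomputable def wt (q p : ℕ) : ℝ := Real.log (md q p)

/-- The sum of the weights. -/
noncomputable def WW (q : ℕ) : ℝ := ∑ p ∈ q.primeFactors, wt q p

/-- The weighted correlation of `x` and `y`. -/
noncomputable def MM (q z x y : ℕ) : ℝ := ∑ p ∈ q.primeFactors, wt q p * (sg q z p x * sg q z p y)

end Pool.Agent.Lib.MP_2c6f70_nt
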