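import Pool.Agent.Lib.MP_2c6f70_nt.AsyC

/-!
# Weighted versions: the effective number of prime powers, heavy prime powers, the size of `a`
-/

set_option autoImplicit false

namespace Pool.Agent.Lib.MP_2c6f70_nt

theorem md_le {q p : ℕ} (hp : p ∈ q.primeFactors) : md q p ≤ p ^ q.factorization p := by
  obtain ⟨k, -, hk, e⟩ := md_eq_pow hp
  rw [e]
  exact Nat.pow_le_pow_right (Nat.prime_of_mem_primeFactors hp).pos hk

theorem le_two_mul_md {q p : ℕ} (hp : p ∈ q.primeFactors) :
    p ^ q.factorization p ≤ 2 * md q p := by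
  have hv := Md_fact_pos hp
  unfold md
  by_cases h2 : p = 2
  · subst h2
    rw [if_pos rfl]
    by_cases h : q.factorization 2 ≤ 2
    · rw [if_pos h]
      calc 2 ^ q.factorization 2 ≤ 2 ^ 2 := Nat.pow_le_pow_right (by norm_num) h
        _ = 2 * 2 := by norm_num
    · rw [if_neg h, ← pow_succ']
      exact Nat.pow_le_pow_right (by norm_num) (by omega)
  · rw [if_neg h2]
    omega

theorem md_eq_of_ne {q p : ℕ} (h2 : p ≠ 2) : md q p = p ^ q.factorization p := by
  unfold md
  rw [if_neg h2]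

theorem WW_le_log {q : ℕ} (hq : q ≠ 0) : WW q ≤ Real.log q := by
  rw [WW_eq]
  have h1 : qs q ≤ q := Nat.le_of_dvd (Nat.pos_of_ne_zero hq) (qs_dvd hq)
  have h2 : (0 : ℝ) < qs q := by exact_mod_cast qs_pos q
  exact Real.log_le_log h2 (by exact_mod_cast h1)

/-- The weight is at most `log (p^e)` and at least `log (p^e) - log 2`. -/
theorem lw_le {q p : ℕ} (hp : p ∈ q.primeFactors) :
    Real.log ((p : ℝ) ^ q.factorization p) ≤ wt q p + Real.log 2 := by
  unfold wt
  have h1 := two_le_md hp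
  have h2 : (0 : ℝ) < md q p := by
    have : 0 < md q p := by omega
    exact_mod_cast this
  have h3 : 0 < p := (Nat.prime_of_mem_primeFactors hp).pos
  rw [add_comm, ← Real.log_mul (by norm_num) h2.ne']
  refine Real.log_le_log (by positivity) ?_
  exact_mod_cast le_two_mul_md hp

theorem lw_eq {q p : ℕ} (h2 : p ≠ 2) :
    Real.log ((p : ℝ) ^ q.factorization p) = wt q p := by
  unfold wt
  rw [md_eq_of_ne h2]
  push_cast
  rfl

theorem lw_nonneg {q p : ℕ} (hp : p ∈ q.primeFactors) :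
    0 ≤ Real.log ((p : ℝ) ^ q.factorization p) := by
  refine Real.log_nonneg ?_
  refine one_le_pow₀ ?_
  exact_mod_cast (Nat.prime_of_mem_primeFactors hp).one_le

/-- Comparison of the sums of the squares. -/
theorem sum_lw_le (q : ℕ) (η : ℝ) (hη : 0 < η) :
    ∑ p ∈ q.primeFactors, Real.log ((p : ℝ) ^ q.factorization p) ^ 2 ≤
      (1 + η) * ∑ p ∈ q.primeFactors, wt q p ^ 2 + (1 + 1 / η) := by
  classical
  have hlog2 : Real.log 2 ≤ 1 := by
    have := Real.log_two_lt_d9
    linarith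
  have hlog2' : 0 < Real.log 2 := Real.log_pos (by norm_num)
  have key : ∀ p ∈ q.primeFactors, Real.log ((p : ℝ) ^ q.factorization p) ^ 2 ≤
      (1 + η) * wt q p ^ 2 + if p = 2 then (1 + 1 / η) else 0 := by
    intro p hp
    by_cases h2 : p = 2
    · rw [if_pos h2]
      have h3 := lw_le hp
      have h4 := lw_nonneg hp
      have h5 := (wt_pos hp).le
      set w := wt q p
      set l := Real.log ((p : ℝ) ^ q.factorization p)
      have h6 : l ^ 2 ≤ (w + Real.log 2) ^ 2 := pow_le_pow_left₀ h4 h3 2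
      have h7 : 2 * w * Real.log 2 ≤ η * w ^ 2 + 1 / η := by
        have h8 : 0 ≤ (η * w - 1) ^ 2 / η := by positivity
        have h9 : (η * w - 1) ^ 2 / η = η * w ^ 2 - 2 * w + 1 / η := by
          field_simp
          ring
        have h10 : 2 * w * Real.log 2 ≤ 2 * w := by nlinarith
        linarith
      have h11 : Real.log 2 ^ 2 ≤ 1 := by nlinarith
      nlinarith
    · rw [if_neg h2, lw_eq h2]
      nlinarith [sq_nonneg (wt q p)]
  refine (Finset.sum_le_sum key).trans ?_
  rw [Finset.sum_add_distrib, ← Finset.mul_sum, Finset.sum_ite_eq']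
  have : (0 : ℝ) ≤ 1 + 1 / η := by positivity
  split_ifs
  · exact le_rfl
  · linarith

/-- Range 3 with the effective number of prime powers `(log q)^2 / ∑ (log p^e)^2`. -/
theorem range3w (ε : ℝ) (hε : 0 < ε) : ∃ N₀ : ℕ, ∀ N ≥ N₀, ∀ (q : ℕ) (S : Finset ℕ), q ≠ 0 →
    Good q N S → N < q.primeFactors.card ^ 4 → Real.sqrt N ≤ S.card →
    (S.card : ℝ) * ∑ p ∈ q.primeFactors, Real.log ((p : ℝ) ^ q.factorization p) ^ 2 ≤
      (1 + ε) * Real.log q ^ 2 := by
  obtain ⟨δ, hδ0, hδ1, hδε⟩ : ∃ δ : ℝ, 0 < δ ∧ δ ≤ 1 ∧ δ ≤ ε :=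
    ⟨min 1 ε, lt_min one_pos hε, min_le_left _ _, min_le_right _ _⟩
  obtain ⟨N₁, hN₁⟩ := range3 1 one_pos
  obtain ⟨K, hK⟩ := exists_nat_gt (9000 + 200000 / δ + 16 * (1 + 12 / δ) * (12 / δ))
  refine ⟨max N₁ (K ^ 4), fun N hN q S hq hS hD hSN => ?_⟩
  have hN1 : N₁ ≤ N := le_trans (le_max_left _ _) hN
  have hN2 : K ^ 4 ≤ N := le_trans (le_max_right _ _) hN
  have hTD := hN₁ N hN1 q S hq hS hD
  have hq1 : 1 < q := by
    by_contra h
    have h1 : q = 1 := by omega
    rw [h1] at hD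
    simp at hD
  have hKpos1 : 0 < 200000 / δ := by positivity
  have hKpos2 : 0 < 16 * (1 + 12 / δ) * (12 / δ) := by positivity
  have hK9 : (9000 : ℝ) < K := by linarith
  have hK9' : 9000 < K := by exact_mod_cast hK9
  set D : ℕ := q.primeFactors.card with hDdef
  have hKD : K < D := lt_of_pow_lt_pow_left₀ 4 (Nat.zero_le _) (lt_of_le_of_lt hN2 hD)
  have hKD' : (K : ℝ) < D := by exact_mod_cast hKD
  have hD9 : (9000 : ℝ) < D := by linarith
  have hD0 : (0 : ℝ) < D := by linarith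
  have hN6 : 6 ≤ N := by
    have h1 : 9000 ^ 4 ≤ K ^ 4 := Nat.pow_le_pow_left hK9'.le 4
    have h2 : (6 : ℕ) ≤ 9000 ^ 4 := by norm_num
    omega
  have hNR : (6 : ℝ) ≤ N := by exact_mod_cast hN6
  have hsqK : (K : ℝ) ^ 2 ≤ Real.sqrt N := by
    apply Real.le_sqrt_of_sq_le
    have : ((K ^ 4 : ℕ) : ℝ) ≤ N := by exact_mod_cast hN2
    push_cast at this
    calc ((K : ℝ) ^ 2) ^ 2 = (K : ℝ) ^ 4 := by ring
      _ ≤ (N : ℝ) := this
  have hTK : (K : ℝ) + 1 ≤ S.card := by nlinarith
  have hT2 : 2 ≤ S.card := by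
    have : (2 : ℝ) ≤ S.card := by linarith
    exact_mod_cast this
  have htr := card_le_trace_w hq1 hN6 hS hT2
  have hWW : (D : ℝ) / 4 * Real.log D ≤ WW q := WW_ge hq (by omega)
  have hlogD1 : 1 ≤ Real.log D := by
    have h1 : Real.exp 1 ≤ D := by
      have := Real.exp_one_lt_d9
      linarith
    rwa [Real.le_log_iff_exp_le hD0]
  have hlogD : 0 < Real.log D := by linarith
  have hlogN : Real.log N ≤ 4 * Real.log D := by
    have h1 : (N : ℝ) ≤ (D : ℝ) ^ 4 := by exact_mod_cast hD.le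
    have h2 := Real.log_le_log (by linarith) h1
    rwa [Real.log_pow] at h2
  have hlog1 : Real.log (5 / 2 * N) ≤ 8 * Real.log D := by
    rw [Real.log_mul (by norm_num) (by linarith)]
    have h1 : Real.log (5 / 2) ≤ Real.log N := Real.log_le_log (by norm_num) (by linarith)
    linarith
  have hlog0 : 0 ≤ Real.log (5 / 2 * N) := Real.log_nonneg (by linarith)
  have hWW0 : 0 < WW q := lt_of_lt_of_le (by positivity) hWW
  have hratio : Real.log (5 / 2 * N) / WW q ≤ 32 / D := by
    rw [div_le_div_iff₀ hWW0 hD0]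
    have h1 : Real.log (5 / 2 * N) * D ≤ 8 * Real.log D * D :=
      mul_le_mul_of_nonneg_right hlog1 hD0.le
    have h2 : 8 * Real.log D * D = 32 * ((D : ℝ) / 4 * Real.log D) := by ring
    rw [h2] at h1
    exact h1.trans (mul_le_mul_of_nonneg_left hWW (by norm_num))
  have hsq : (Real.log (5 / 2 * N) / WW q) ^ 2 ≤ (32 / D) ^ 2 :=
    pow_le_pow_left₀ (div_nonneg hlog0 hWW0.le) hratio 2
  have hT1 : (K : ℝ) ≤ (S.card : ℝ) - 1 := by linarith
  have hT1' : (0 : ℝ) < (S.card : ℝ) - 1 := by linarith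
  have hTD2 : (S.card : ℝ) - 1 ≤ 2 * D := by linarith
  have h3 : 8 * ((S.card : ℝ) - 1) * (Real.log (5 / 2 * N) / WW q) ^ 2 ≤ 16384 / D := by
    calc 8 * ((S.card : ℝ) - 1) * (Real.log (5 / 2 * N) / WW q) ^ 2
        ≤ 8 * (2 * D) * (32 / D) ^ 2 := by
          refine mul_le_mul (by linarith) hsq (sq_nonneg _) (by positivity)
      _ = 16384 / (D : ℝ) := by
          field_simp
          norm_num
  have hK200 : 200000 / δ < K := by linarith
  have hK0 : (0 : ℝ) < K := by linarith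
  have h4 : 16384 / (D : ℝ) ≤ δ / 12 := by
    rw [div_le_iff₀ hD0]
    have h5 : 200000 < K * δ := by rwa [div_lt_iff₀ hδ0] at hK200
    nlinarith
  have h6 : 2 / ((S.card : ℝ) - 1) ≤ δ / 12 := by
    rw [div_le_iff₀ hT1']
    have h5 : 200000 < K * δ := by rwa [div_lt_iff₀ hδ0] at hK200
    nlinarith
  -- the trace inequality
  set V := ∑ p ∈ q.primeFactors, wt q p ^ 2 with hV
  have hV0 : 0 ≤ V := Finset.sum_nonneg fun p _ => sq_nonneg _
  have h7 : (S.card : ℝ) * V ≤ (WW q) ^ 2 * (1 + δ / 6) := by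
    refine htr.trans (mul_le_mul_of_nonneg_left (by linarith) (sq_nonneg _))
  have hcs : (WW q) ^ 2 ≤ D * V := sq_sum_le_card_mul_sum_sq
  have hVlow : (D : ℝ) / 16 ≤ V := by
    have h8 : ((D : ℝ) / 4) ^ 2 ≤ (WW q) ^ 2 := by
      refine pow_le_pow_left₀ (by positivity) ?_ 2
      nlinarith
    have h9 : (D : ℝ) * (D / 16) ≤ D * V := by nlinarith
    exact le_of_mul_le_mul_left h9 hD0
  have h10 := sum_lw_le q (δ / 12) (by positivity)
  rw [← hV] at h10
  have h11 : 1 + 1 / (δ / 12) ≤ δ / 12 * V := by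
    have h12 : 16 * (1 + 12 / δ) * (12 / δ) < D := by linarith
    have h13 : (1 + 12 / δ) * (12 / δ) ≤ V := by linarith
    calc 1 + 1 / (δ / 12) = δ / 12 * ((1 + 12 / δ) * (12 / δ)) := by
          field_simp
      _ ≤ δ / 12 * V := mul_le_mul_of_nonneg_left h13 (by positivity)
  have h14 : ∑ p ∈ q.primeFactors, Real.log ((p : ℝ) ^ q.factorization p) ^ 2 ≤
      (1 + δ / 6) * V := by linarith
  calc (S.card : ℝ) * ∑ p ∈ q.primeFactors, Real.log ((p : ℝ) ^ q.factorization p) ^ 2
      ≤ S.card * ((1 + δ / 6) * V) := mul_le_mul_of_nonneg_left h14 (Nat.cast_nonneg _)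
    _ = (1 + δ / 6) * (S.card * V) := by ring
    _ ≤ (1 + δ / 6) * ((WW q) ^ 2 * (1 + δ / 6)) := mul_le_mul_of_nonneg_left h7 (by positivity)
    _ = (1 + δ / 6) ^ 2 * (WW q) ^ 2 := by ring
    _ ≤ (1 + ε) * Real.log q ^ 2 := by
      refine mul_le_mul ?_ (pow_le_pow_left₀ hWW0.le (WW_le_log hq) 2) (sq_nonneg _) (by positivity)
      nlinarith

/-- A heavy prime power. -/
theorem heavy {q N : ℕ} {S : Finset ℕ} (hq : q ≠ 0) (hN : 1 ≤ N) (hS : Good q N S) {p : ℕ}
    (hp : p ∈ q.primeFactors) (hw : 2 * Real.log (2 * N) ≤ wt q p) :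
    ((S.card : ℝ) - 2) * wt q p ≤ 4 * WW q := by
  classical
  rcases S.eq_empty_or_nonempty with h | ⟨z, hz⟩
  · rw [h, Finset.card_empty]
    have h1 := (wt_pos hp).le
    have h2 := Abs_WW_nonneg q
    push_cast
    nlinarith
  have hNr : (1 : ℝ) ≤ N := by exact_mod_cast hN
  have hlog : 0 < Real.log (2 * N) := Real.log_pos (by linarith)
  have key : ∀ S' : Finset ℕ, S' ⊆ S → (∀ x ∈ S', ∀ y ∈ S', sg q z p x = sg q z p y) →
      ((S'.card : ℝ) - 1) * wt q p ≤ 2 * WW q := by
    intro S' hsub hsame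
    have h := card_fiber_le q.primeFactors {p} (by simpa using hp) S' (wt q)
      (fun p hp => (wt_pos hp).le) (fun p x => sg q z p x) (fun p _ x _ => sg_sq q z p x)
      (by
        intro p' hp' x hx y hy
        rw [Finset.mem_singleton] at hp'
        subst hp'
        exact hsame x hx y hy) (Real.log (2 * N)) hlog
      (by rw [Finset.sum_singleton]; exact hw)
      (fun x hx y hy hxy => MM_le hq hS (hsub hx) (hsub hy) hz hxy)
    rw [Finset.sum_singleton] at h
    exact h
  have h1 := key (S.filter fun x => sg q z p x = 1) (Finset.filter_subset _ _) (by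
    intro x hx y hy
    rw [(Finset.mem_filter.mp hx).2, (Finset.mem_filter.mp hy).2])
  have h2 := key (S.filter fun x => ¬ sg q z p x = 1) (Finset.filter_subset _ _) (by
    intro x hx y hy
    rw [(sg_eq_or q z p x).resolve_left (Finset.mem_filter.mp hx).2,
      (sg_eq_or q z p y).resolve_left (Finset.mem_filter.mp hy).2])
  have h3 : ((S.filter fun x => sg q z p x = 1).card : ℝ) +
      (S.filter fun x => ¬ sg q z p x = 1).card = S.card := by
    exact_mod_cast Finset.card_filter_add_card_filter_not (s := S) (fun x => sg q z p x = 1)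
  rw [← h3]
  nlinarith

/-- The size of `a`. -/
theorem size_a {q N a : ℕ} {S : Finset ℕ} (hq : q ≠ 0) (hN : 1 ≤ N) (ha : 1 ≤ a)
    (hS : Good q N S) (hSa : ∀ x ∈ S, a ≤ x ^ 2) (hT : 2 ≤ S.card) :
    a ^ (S.card - 1) ≤ N ^ (2 * (S.card - 1)) * q ^ S.card := by
  classical
  obtain ⟨z, hz⟩ : S.Nonempty := Finset.card_pos.1 (by omega)
  have hNr : (1 : ℝ) ≤ N := by exact_mod_cast hN
  have hN0 : (0 : ℝ) < N := by linarith
  have har : (0 : ℝ) < a := by exact_mod_cast ha
  have hq0 : (0 : ℝ) < q := by exact_mod_cast Nat.pos_of_ne_zero hq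
  have hTr : (2 : ℝ) ≤ S.card := by exact_mod_cast hT
  have hup : ∀ u ∈ S, ∀ v ∈ S, MM q z u v ≤
      if u = v then WW q else WW q + 2 * Real.log N - Real.log a := by
    intro u hu v hv
    split_ifs with huv
    · rw [huv, MM_self]
    · refine le_trans (MM_le' hq hS hu hv hz huv) ?_
      have hsq : ∀ x ∈ S, Real.sqrt a ≤ x := by
        intro x hx
        rw [Real.sqrt_le_left (Nat.cast_nonneg x)]
        exact_mod_cast hSa x hx
      have h1 : 0 < Real.sqrt a := Real.sqrt_pos.mpr har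
      have h2 : Real.log (2 * Real.sqrt a) ≤ Real.log ((u : ℝ) + v) := by
        refine Real.log_le_log (by positivity) ?_
        have := hsq u hu
        have := hsq v hv
        linarith
      rw [Real.log_mul (by norm_num) h1.ne', Real.log_sqrt har.le] at h2
      rw [Real.log_mul (by norm_num) hN0.ne']
      linarith
  have hsum := sum_corr_nonneg q.primeFactors S (wt q) (fun p hp => (wt_pos hp).le)
    (fun p x => sg q z p x)
  have hsum' : ∑ u ∈ S, ∑ v ∈ S, MM q z u v ≤ (S.card : ℝ) * WW q + S.card *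
      ((S.card : ℝ) - 1) * (WW q + 2 * Real.log N - Real.log a) := by
    rw [← Abs_sum_ite]
    exact Finset.sum_le_sum fun u hu => Finset.sum_le_sum fun v hv => hup u hu v hv
  have h0 : 0 ≤ (S.card : ℝ) * (WW q +
      ((S.card : ℝ) - 1) * (WW q + 2 * Real.log N - Real.log a)) := by
    refine le_trans hsum (le_trans hsum' (le_of_eq ?_))
    ring
  have h1 := nonneg_of_mul_nonneg_right h0 (by linarith)
  have hWle := WW_le_log hq
  have h2 : ((S.card : ℝ) - 1) * Real.log a ≤
      2 * ((S.card : ℝ) - 1) * Real.log N + S.card * Real.log q := by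
    have h3 : (S.card : ℝ) * WW q ≤ S.card * Real.log q :=
      mul_le_mul_of_nonneg_left hWle (Nat.cast_nonneg _)
    nlinarith
  have hc : ((S.card - 1 : ℕ) : ℝ) = (S.card : ℝ) - 1 := by
    rw [Nat.cast_sub (by omega), Nat.cast_one]
  have h3 : Real.log ((a : ℝ) ^ (S.card - 1)) ≤
      Real.log ((N : ℝ) ^ (2 * (S.card - 1)) * (q : ℝ) ^ S.card) := by
    rw [Real.log_mul (by positivity) (by positivity), Real.log_pow, Real.log_pow, Real.log_pow]
    push_cast
    rw [hc]
    linarith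
  have h4 := (Real.log_le_log_iff (by positivity) (by positivity)).mp h3
  exact_mod_cast h4

end Pool.Agent.Lib.MP_2c6f70_nt
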