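import Pool.Agent.Lib.MP_2c6f70_nt.Defs
import Pool.Prelude.Def_F_e853f830

/-!
# JOB Root: the good set of a progression
-/

set_option autoImplicit false

namespace Pool.Agent.Lib.MP_2c6f70_nt

open Necdea073

/-- The set `S` of all `x` with `x^2 = q n + a` for some `n < N` (image of the finite set of the `n` under the square root
`Nat.sqrt`, injective because `q ≥ 1`).  `x` is coprime to `q` because `gcd (x, q)` divides `a` and `q`.  For `x ≤ y`:
`y^2 - x^2 = q (n_y - n_x)`. -/
theorem exists_good (N q a : ℕ) (hq : 1 ≤ q) (hc : Nat.Coprime q a) :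
    ∃ S : Finset ℕ, Good q N S ∧ S.card = Q N q a ∧ ∀ x ∈ S, a ≤ x ^ 2 := by
  classical
  let T : Finset ℕ := (Finset.range N).filter fun n => IsSquare (q * n + a)
  have hT : ∀ n ∈ T, n < N ∧ Nat.sqrt (q * n + a) ^ 2 = q * n + a := by
    intro n hn
    rw [Finset.mem_filter, Finset.mem_range] at hn
    refine ⟨hn.1, ?_⟩
    obtain ⟨r, hr⟩ := hn.2
    rw [hr, Nat.sqrt_eq, sq]
  refine ⟨T.image fun n => Nat.sqrt (q * n + a), ⟨?_, ?_⟩, ?_, ?_⟩
  · intro x hx
    obtain ⟨n, hn, rfl⟩ := Finset.mem_image.1 hx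
    have h1 : ((Nat.sqrt (q * n + a)) ^ 2).Coprime q := by
      rw [(hT n hn).2]
      rw [Nat.coprime_comm, mul_comm q n]
      exact (Nat.coprime_mul_right_add_right q a n).2 hc
    exact (Nat.coprime_pow_left_iff (by norm_num) _ _).1 h1
  · intro x hx y hy hxy
    obtain ⟨n, hn, rfl⟩ := Finset.mem_image.1 hx
    obtain ⟨m, hm, rfl⟩ := Finset.mem_image.1 hy
    have h1 := Nat.pow_le_pow_left hxy 2
    rw [(hT n hn).2, (hT m hm).2] at h1 ⊢
    have h2 : n ≤ m := by
      by_contra hcon
      push Not at hcon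
      have : q * m < q * n := Nat.mul_lt_mul_of_pos_left hcon hq
      omega
    refine ⟨m - n, ?_, by have := (hT m hm).1; omega⟩
    rw [Nat.mul_sub]
    have : q * n ≤ q * m := Nat.mul_le_mul_left q h2
    omega
  · rw [Finset.card_image_of_injOn]
    · unfold Q
      rw [← Set.ncard_coe_finset]
      congr 1
      ext n
      simp [T]
    · intro n hn m hm h
      have h1 := (hT n hn).2
      have h2 := (hT m hm).2
      have h3 : Nat.sqrt (q * n + a) = Nat.sqrt (q * m + a) := h
      rw [h3, h2] at h1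
      have h4 : q * m = q * n := by omega
      exact (Nat.eq_of_mul_eq_mul_left hq h4).symm
  · intro x hx
    obtain ⟨n, hn, rfl⟩ := Finset.mem_image.1 hx
    have h1 := (hT n hn).2
    rw [h1]
    omega

end Pool.Agent.Lib.MP_2c6f70_nt
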