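import Pool.Agent.Lib.MP_2c6f70_nt.Defs
import Pool.Prelude.Def_F_e853f830

/-!
# JOB TwentyFour: the progressions of difference 24

`Necdea073.Q N q a = {n | n < N ∧ IsSquare (q * n + a)}.ncard`.
-/

set_option autoImplicit false

namespace Pool.Agent.Lib.MP_2c6f70_nt

open Necdea073

/-- The `j`-th positive integer coprime to `6` (`j ≥ 1`): `1, 5, 7, 11, ...`. -/
def cc (j : ℕ) : ℕ := if j % 2 = 1 then 3 * j - 2 else 3 * j - 1

private theorem TwentyFour_sq {x : ℕ} (hx : x % 6 = 1 ∨ x % 6 = 5) : x ^ 2 % 24 = 1 := by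
  have h1 : x % 24 < 24 := Nat.mod_lt _ (by norm_num)
  have h2 : x % 6 = x % 24 % 6 := by omega
  rw [Nat.pow_mod]
  rw [h2] at hx
  generalize x % 24 = r at h1 hx
  interval_cases r <;> simp at hx ⊢

private theorem TwentyFour_cop {x : ℕ} (hx : x.Coprime 6) : x % 6 = 1 ∨ x % 6 = 5 := by
  have h2 : x.Coprime 2 := Nat.Coprime.coprime_dvd_right (by norm_num) hx
  have h3 : x.Coprime 3 := Nat.Coprime.coprime_dvd_right (by norm_num) hx
  have h2' : ¬ 2 ∣ x := fun h => by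
    have := Nat.Coprime.eq_one_of_dvd (Nat.Coprime.symm h2) h
    omega
  have h3' : ¬ 3 ∣ x := fun h => by
    have := Nat.Coprime.eq_one_of_dvd (Nat.Coprime.symm h3) h
    omega
  omega

private theorem TwentyFour_ccmod {j : ℕ} (hj : 1 ≤ j) : cc j % 6 = 1 ∨ cc j % 6 = 5 := by
  unfold cc
  split_ifs <;> omega

private theorem TwentyFour_cclt {i j : ℕ} (hi : 1 ≤ i) (hij : i < j) : cc i < cc j := by
  unfold cc
  split_ifs <;> omega

private theorem TwentyFour_ccle (j : ℕ) : cc j ≤ 3 * j - 1 := by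
  unfold cc
  split_ifs <;> omega

private theorem TwentyFour_fin (N q a : ℕ) : {n : ℕ | n < N ∧ IsSquare (q * n + a)}.Finite :=
  (Set.finite_lt_nat N).subset (fun _ hn => hn.1)

/-- If `cc T ^ 2 ≤ 24 (N - 1) + 1` then the numbers `(cc j ^ 2 - 1) / 24`, `j = 1..T`, are distinct, less than `N` and `24 n + 1 = cc j ^ 2`
(a square of a number coprime to `6` is `1` modulo `24`). -/
theorem le_Q24 (N T : ℕ) (hT : 1 ≤ T) (h : cc T ^ 2 ≤ 24 * (N - 1) + 1) (hN : 1 ≤ N) :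
    T ≤ Q N 24 1 := by
  have hG : ∀ j ∈ Finset.Icc 1 T, 24 * (cc j ^ 2 / 24) + 1 = cc j ^ 2 := by
    intro j hj
    have h1 := TwentyFour_sq (TwentyFour_ccmod (Finset.mem_Icc.mp hj).1)
    omega
  have hinj : Set.InjOn (fun j => cc j ^ 2 / 24) (Finset.Icc 1 T : Finset ℕ) := by
    intro i hi j hj hij
    have hi' := Finset.mem_Icc.mp (Finset.mem_coe.mp hi)
    have hj' := Finset.mem_Icc.mp (Finset.mem_coe.mp hj)
    have h1 : cc i ^ 2 / 24 = cc j ^ 2 / 24 := hij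
    have h2 : cc i ^ 2 = cc j ^ 2 := by
      rw [← hG i (Finset.mem_coe.mp hi), ← hG j (Finset.mem_coe.mp hj), h1]
    have h3 : cc i = cc j := Nat.pow_left_injective (n := 2) (by norm_num) h2
    rcases lt_trichotomy i j with h4 | h4 | h4
    · have := TwentyFour_cclt hi'.1 h4
      omega
    · exact h4
    · have := TwentyFour_cclt hj'.1 h4
      omega
  have hcard : ((Finset.Icc 1 T).image (fun j => cc j ^ 2 / 24)).card = T := by
    rw [Finset.card_image_of_injOn hinj, Nat.card_Icc]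
    omega
  have hsub : (((Finset.Icc 1 T).image (fun j => cc j ^ 2 / 24) : Finset ℕ) : Set ℕ) ⊆
      {n : ℕ | n < N ∧ IsSquare (24 * n + 1)} := by
    intro n hn
    obtain ⟨j, hj, rfl⟩ := Finset.mem_image.mp (Finset.mem_coe.mp hn)
    have hj' := Finset.mem_Icc.mp hj
    have h1 := hG j hj
    have h2 : cc j ^ 2 ≤ cc T ^ 2 := by
      refine Nat.pow_le_pow_left ?_ 2
      rcases Nat.lt_or_ge j T with h3 | h3
      · exact (TwentyFour_cclt hj'.1 h3).le
      · have h4 : j = T := le_antisymm hj'.2 h3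
        rw [h4]
    refine ⟨?_, ?_⟩
    · show cc j ^ 2 / 24 < N
      omega
    · show IsSquare (24 * (cc j ^ 2 / 24) + 1)
      rw [h1]
      exact ⟨cc j, by ring⟩
  calc T = ((Finset.Icc 1 T).image (fun j => cc j ^ 2 / 24)).card := hcard.symm
    _ = Set.ncard (((Finset.Icc 1 T).image (fun j => cc j ^ 2 / 24) : Finset ℕ) : Set ℕ) :=
        (Set.ncard_coe_finset _).symm
    _ ≤ Q N 24 1 := Set.ncard_le_ncard hsub (TwentyFour_fin N 24 1)

/-- The number of integers coprime to `6` in an interval of length `ℓ`: at most `(ℓ + 4) / 3`. -/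
theorem card_coprime_six (S : Finset ℕ) (hS : ∀ x ∈ S, x.Coprime 6) (u ℓ : ℕ)
    (h : ∀ x ∈ S, u ≤ x ∧ x ≤ u + ℓ) : 3 * S.card ≤ ℓ + 4 := by
  rcases S.eq_empty_or_nonempty with h0 | h0
  · subst h0
    simp
  have hinj : Set.InjOn (fun x : ℕ => x / 3) (S : Set ℕ) := by
    intro x hx y hy hxy
    have h1 := TwentyFour_cop (hS x (Finset.mem_coe.mp hx))
    have h2 := TwentyFour_cop (hS y (Finset.mem_coe.mp hy))
    have h3 : x / 3 = y / 3 := hxy
    omega
  have hm := S.min'_mem h0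
  have hM := S.max'_mem h0
  have hsub : S.image (fun x : ℕ => x / 3) ⊆ Finset.Icc (S.min' h0 / 3) (S.max' h0 / 3) := by
    intro y hy
    obtain ⟨x, hx, rfl⟩ := Finset.mem_image.mp hy
    have h1 := S.min'_le x hx
    have h2 := S.le_max' x hx
    rw [Finset.mem_Icc]
    exact ⟨Nat.div_le_div_right h1, Nat.div_le_div_right h2⟩
  have hc := Finset.card_le_card hsub
  rw [Finset.card_image_of_injOn hinj, Nat.card_Icc] at hc
  have h1 := TwentyFour_cop (hS _ hm)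
  have h2 := TwentyFour_cop (hS _ hM)
  have h3 := h _ hm
  have h4 := h _ hM
  have h5 : S.min' h0 ≤ S.max' h0 := S.min'_le _ hM
  omega

/-- `a ≥ 1` coprime to `24`.  Let `S` be the set of the `x` with `x^2 = 24 n + a`, `n < N`, `T = #S = Q N 24 a`; all `x ∈ S` are coprime to `6`.
`T = 0` trivial; `T = 1`: `Q N 24 1 ≥ 1` (`n = 0`).  If the smallest element `x₁` is `1` then `a = 1`.  Otherwise `x₁ ≥ 5`, and for the largest `x_T`:
`x_T - x₁ ≥ 3 T - 4` (`card_coprime_six`), `24 (N - 1) ≥ x_T^2 - x₁^2 ≥ (3T-4)(3T+6) ≥ (3T-1)^2 - 1 ≥ cc T ^ 2 - 1` for `T ≥ 2`: `le_Q24`. -/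
theorem Q24_le (N a : ℕ) (ha : 1 ≤ a) (hc : Nat.Coprime 24 a) : Q N 24 a ≤ Q N 24 1 := by
  obtain ⟨A, hA⟩ : ∃ A : Finset ℕ, A = (TwentyFour_fin N 24 a).toFinset := ⟨_, rfl⟩
  have hmem : ∀ n, n ∈ A ↔ (n < N ∧ IsSquare (24 * n + a)) := by
    intro n
    rw [hA, Set.Finite.mem_toFinset]
    exact Iff.rfl
  have hQ : Q N 24 a = A.card := by
    rw [hA]
    exact Set.ncard_eq_toFinset_card _ (TwentyFour_fin N 24 a)
  have hsq : ∀ n ∈ A, Nat.sqrt (24 * n + a) ^ 2 = 24 * n + a := by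
    intro n hn
    obtain ⟨r, hr⟩ := ((hmem n).mp hn).2
    rw [hr, Nat.sqrt_eq]
    ring
  obtain ⟨S, hS⟩ : ∃ S : Finset ℕ, S = A.image (fun n => Nat.sqrt (24 * n + a)) := ⟨_, rfl⟩
  have hScard : S.card = A.card := by
    rw [hS]
    refine Finset.card_image_of_injOn ?_
    intro x hx y hy hxy
    have h1 : Nat.sqrt (24 * x + a) = Nat.sqrt (24 * y + a) := hxy
    have h2 := hsq x (Finset.mem_coe.mp hx)
    have h3 := hsq y (Finset.mem_coe.mp hy)
    rw [h1] at h2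
    omega
  have hSx : ∀ x ∈ S, ∃ n, n < N ∧ x ^ 2 = 24 * n + a := by
    intro x hx
    rw [hS] at hx
    obtain ⟨n, hn, rfl⟩ := Finset.mem_image.mp hx
    exact ⟨n, ((hmem n).mp hn).1, hsq n hn⟩
  have hcop : ∀ x ∈ S, x.Coprime 6 := by
    intro x hx
    obtain ⟨n, -, hn⟩ := hSx x hx
    have h1 : Nat.Coprime 24 (x ^ 2) := by
      rw [hn]
      exact (Nat.coprime_mul_left_add_right 24 a n).mpr hc
    have h2 : Nat.Coprime 24 x := Nat.Coprime.coprime_dvd_right (dvd_pow_self x (by norm_num)) h1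
    exact (Nat.Coprime.coprime_dvd_left (by norm_num : 6 ∣ 24) h2).symm
  rw [hQ, ← hScard]
  rcases S.eq_empty_or_nonempty with h0 | h0
  · rw [h0, Finset.card_empty]
    exact Nat.zero_le _
  obtain ⟨n1, hn1, hx1⟩ := hSx _ (S.min'_mem h0)
  obtain ⟨n2, hn2, hx2⟩ := hSx _ (S.max'_mem h0)
  have hle : S.min' h0 ≤ S.max' h0 := S.min'_le _ (S.max'_mem h0)
  obtain ⟨l, hl⟩ := Nat.exists_eq_add_of_le hle
  have hcs := card_coprime_six S hcop (S.min' h0) l (fun x hx => ⟨S.min'_le x hx, by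
    rw [← hl]
    exact S.le_max' x hx⟩)
  have hmod := TwentyFour_cop (hcop _ (S.min'_mem h0))
  have hpos : 1 ≤ S.card := Finset.card_pos.mpr h0
  by_cases hone : S.min' h0 = 1
  · have ha1 : a = 1 := by
      rw [hone] at hx1
      omega
    rw [hScard, ← hQ, ha1]
  · have h5 : 5 ≤ S.min' h0 := by omega
    generalize S.min' h0 = x1 at *
    generalize S.max' h0 = x2 at *
    refine le_Q24 N S.card hpos ?_ (by omega)
    have hcc := TwentyFour_ccle S.card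
    generalize S.card = T at *
    rcases Nat.lt_or_ge T 2 with hT | hT
    · have hT1 : T = 1 := by omega
      rw [hT1]
      show (if 1 % 2 = 1 then 3 * 1 - 2 else 3 * 1 - 1) ^ 2 ≤ 24 * (N - 1) + 1
      simp
    · obtain ⟨t, rfl⟩ := Nat.exists_eq_add_of_le hT
      have h6 : cc (2 + t) ^ 2 ≤ (3 * t + 5) ^ 2 := Nat.pow_le_pow_left (by omega) 2
      have h7 : 3 * t + 2 ≤ l := by omega
      have h8 : x2 ^ 2 = x1 ^ 2 + (2 * x1 * l + l ^ 2) := by
        rw [hl]; ring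
      have h9 : 2 * 5 * (3 * t + 2) ≤ 2 * x1 * l :=
        Nat.mul_le_mul (Nat.mul_le_mul_left 2 h5) h7
      have h10 : (3 * t + 2) ^ 2 ≤ l ^ 2 := Nat.pow_le_pow_left h7 2
      have h11 : (3 * t + 5) ^ 2 ≤ 2 * 5 * (3 * t + 2) + (3 * t + 2) ^ 2 + 1 := by
        nlinarith
      omega

/-- Lower bound: `T` = integer part of `1.6 sqrt N`: `(3 T - 1)^2 ≤ 9 * 2.56 N = 23.04 N ≤ 24 (N - 1) + 1` for large `N`. -/
theorem Q24_ge (N : ℕ) (hN : 1000 ≤ N) : 3 / 2 * Real.sqrt N ≤ (Q N 24 1 : ℝ) := by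
  have hN0 : (1000 : ℝ) ≤ (N : ℝ) := by exact_mod_cast hN
  have hs0 : 0 ≤ Real.sqrt N := Real.sqrt_nonneg _
  have hs2 : Real.sqrt N ^ 2 = N := Real.sq_sqrt (by linarith)
  have hs10 : 10 ≤ Real.sqrt N := by
    rw [show (10 : ℝ) = Real.sqrt (10 ^ 2) from (Real.sqrt_sq (by norm_num)).symm]
    exact Real.sqrt_le_sqrt (by linarith)
  have hf1 := Nat.floor_le (show 0 ≤ 8 / 5 * Real.sqrt N by positivity)
  have hf2 := Nat.lt_floor_add_one (8 / 5 * Real.sqrt N)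
  obtain ⟨T, hT⟩ : ∃ T : ℕ, T = ⌊8 / 5 * Real.sqrt N⌋₊ := ⟨_, rfl⟩
  rw [← hT] at hf1 hf2
  have hTpos : 1 ≤ T := by
    have : (0 : ℝ) < T := by linarith
    exact_mod_cast this
  have hle : T ≤ Q N 24 1 := by
    refine le_Q24 N T hTpos ?_ (by omega)
    have h1 : cc T ^ 2 ≤ (3 * T) ^ 2 :=
      Nat.pow_le_pow_left ((TwentyFour_ccle T).trans (Nat.sub_le _ _)) 2
    refine h1.trans ?_
    have h2 : (T : ℝ) ^ 2 ≤ (8 / 5 * Real.sqrt N) ^ 2 := pow_le_pow_left₀ (by positivity) hf1 2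
    have h3 : (8 / 5 * Real.sqrt N) ^ 2 = 64 / 25 * N := by
      rw [mul_pow, hs2]; norm_num
    rw [h3] at h2
    have h4 : (((3 * T) ^ 2 + 23 : ℕ) : ℝ) ≤ ((24 * N : ℕ) : ℝ) := by
      push_cast
      nlinarith
    have h5 : (3 * T) ^ 2 + 23 ≤ 24 * N := by exact_mod_cast h4
    omega
  have hle' : (T : ℝ) ≤ (Q N 24 1 : ℝ) := by exact_mod_cast hle
  linarith

end Pool.Agent.Lib.MP_2c6f70_nt
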