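import Pool.Agent.Lib.MP_2c6f70_nt.Defs

/-!
# JOB Md: the moduli
-/

set_option autoImplicit false

namespace Pool.Agent.Lib.MP_2c6f70_nt

theorem Md_fact_pos {q p : ℕ} (hp : p ∈ q.primeFactors) : 1 ≤ q.factorization p := by
  have h := Nat.mem_primeFactors.mp hp
  exact (Nat.Prime.dvd_iff_one_le_factorization h.1 h.2.2).mp h.2.1

/-- `md q p` is a power of `p` with exponent between `1` and `v`. -/
theorem md_eq_pow {q p : ℕ} (hp : p ∈ q.primeFactors) :
    ∃ k : ℕ, 1 ≤ k ∧ k ≤ q.factorization p ∧ md q p = p ^ k := by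
  have hv := Md_fact_pos hp
  unfold md
  by_cases h2 : p = 2
  · subst h2
    rw [if_pos rfl]
    by_cases h : q.factorization 2 ≤ 2
    · rw [if_pos h]
      exact ⟨1, le_rfl, hv, by norm_num⟩
    · rw [if_neg h]
      exact ⟨q.factorization 2 - 1, by omega, by omega, rfl⟩
  · rw [if_neg h2]
    exact ⟨q.factorization p, hv, le_rfl, rfl⟩

/-- Both branches: a power of `p` at least `2` (exponent `v = q.factorization p ≥ 1` for `p ∣ q`; for `p = 2`, `v ≥ 3`: `2^(v-1) ≥ 4`). -/
theorem two_le_md {q p : ℕ} (hp : p ∈ q.primeFactors) : 2 ≤ md q p := by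
  obtain ⟨k, hk, -, e⟩ := md_eq_pow hp
  have h := (Nat.prime_of_mem_primeFactors hp).two_le
  rw [e]
  calc 2 ≤ p := h
    _ = p ^ 1 := (pow_one p).symm
    _ ≤ p ^ k := Nat.pow_le_pow_right (by omega) hk

theorem md_coprime {q p p' : ℕ} (hp : p ∈ q.primeFactors) (hp' : p' ∈ q.primeFactors)
    (h : p ≠ p') : (md q p).Coprime (md q p') := by
  obtain ⟨k, -, -, e⟩ := md_eq_pow hp
  obtain ⟨k', -, -, e'⟩ := md_eq_pow hp'
  rw [e, e']
  exact Nat.Coprime.pow _ _ ((Nat.coprime_primes (Nat.prime_of_mem_primeFactors hp)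
    (Nat.prime_of_mem_primeFactors hp')).mpr h)

theorem qs_pos (q : ℕ) : 0 < qs q := by
  unfold qs
  exact Finset.prod_pos fun p hp => lt_of_lt_of_le (by norm_num) (two_le_md hp)

theorem Md_prod {q : ℕ} (hq : q ≠ 0) : ∏ p ∈ q.primeFactors, p ^ q.factorization p = q := by
  have h := Nat.prod_factorization_pow_eq_self hq
  rw [Finsupp.prod, Nat.support_factorization] at h
  exact h

/-- If the exponent of `2` in `q` is at most `1` then `qs q = q`. -/
theorem qs_eq_self {q : ℕ} (hq : q ≠ 0) (h : q.factorization 2 ≤ 1) : qs q = q := by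
  conv_rhs => rw [← Md_prod hq]
  unfold qs
  refine Finset.prod_congr rfl fun p hp => ?_
  unfold md
  by_cases h2 : p = 2
  · subst h2
    have hv := Md_fact_pos hp
    rw [if_pos rfl, if_pos (by omega)]
    have : q.factorization 2 = 1 := by omega
    rw [this, pow_one]
  · rw [if_neg h2]

/-- If the exponent of `2` is at least `2` then `q = 2 * qs q`. -/
theorem two_mul_qs {q : ℕ} (h : 2 ≤ q.factorization 2) : 2 * qs q = q := by
  have hq : q ≠ 0 := by
    rintro rfl
    simp at h
  have h2 : 2 ∈ q.primeFactors := by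
    rw [← Nat.support_factorization, Finsupp.mem_support_iff]
    omega
  conv_rhs => rw [← Md_prod hq]
  unfold qs
  rw [← Finset.mul_prod_erase _ _ h2, ← Finset.mul_prod_erase _ (fun p => p ^ q.factorization p) h2,
    ← mul_assoc]
  congr 1
  · unfold md
    rw [if_pos rfl]
    by_cases h3 : q.factorization 2 ≤ 2
    · rw [if_pos h3]
      have : q.factorization 2 = 2 := by omega
      rw [this]
      norm_num
    · rw [if_neg h3, ← pow_succ']
      congr 1
      omega
  · refine Finset.prod_congr rfl fun p hp => ?_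
    unfold md
    rw [if_neg (Finset.ne_of_mem_erase hp)]

/-- `qs q = q` or `2 * qs q = q`; here: `q ≤ 2 * qs q`.  Proof: `q = ∏ p ^ v_p` (`Nat.factorization_prod_pow_eq_self`); if `2 ∤ q`
all factors agree; otherwise split off the factor of `2` (`Finset.mul_prod_erase`), `2 ^ v ≤ 2 * md q 2`. -/
theorem le_two_mul_qs {q : ℕ} (hq : q ≠ 0) : q ≤ 2 * qs q := by
  by_cases h : q.factorization 2 ≤ 1
  · rw [qs_eq_self hq h]
    omega
  · rw [two_mul_qs (by omega)]

theorem qs_dvd {q : ℕ} (hq : q ≠ 0) : qs q ∣ q := by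
  by_cases h : q.factorization 2 ≤ 1
  · rw [qs_eq_self hq h]
  · exact ⟨2, by rw [mul_comm, two_mul_qs (by omega)]⟩

theorem wt_pos {q p : ℕ} (hp : p ∈ q.primeFactors) : 0 < wt q p := by
  unfold wt
  refine Real.log_pos ?_
  have := two_le_md hp
  have h2 : (2 : ℝ) ≤ (md q p : ℝ) := by exact_mod_cast this
  linarith

theorem WW_eq (q : ℕ) : WW q = Real.log (qs q) := by
  unfold WW qs wt
  push_cast
  rw [Real.log_prod]
  intro p hp
  have := two_le_md hp
  have h2 : (2 : ℝ) ≤ (md q p : ℝ) := by exact_mod_cast this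
  linarith

/-- A product of pairwise coprime moduli divides. -/
theorem prod_md_dvd {q : ℕ} (P : Finset ℕ) (hP : P ⊆ q.primeFactors) (u : ℤ)
    (h : ∀ p ∈ P, (md q p : ℤ) ∣ u) : ((∏ p ∈ P, md q p : ℕ) : ℤ) ∣ u := by
  rw [Int.natCast_dvd]
  refine Finset.prod_dvd_of_isRelPrime ?_ ?_
  · intro p hp p' hp' hne
    have := md_coprime (hP hp) (hP hp') hne
    exact Nat.coprime_iff_isRelPrime.mp this
  · intro p hp
    exact Int.natCast_dvd.mp (h p hp)

end Pool.Agent.Lib.MP_2c6f70_nt
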