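import Pool.Agent.Lib.MP_2c6f70_nt.Md

/-!
# JOB Sg: signs and correlations

`S` good, `z, x, y ∈ S`.
-/

set_option autoImplicit false

namespace Pool.Agent.Lib.MP_2c6f70_nt

theorem Sg_q_dvd {q N : ℕ} {S : Finset ℕ} (hS : Good q N S) {x y : ℕ} (hx : x ∈ S) (hy : y ∈ S) :
    (q : ℤ) ∣ ((x : ℤ) - y) * ((x : ℤ) + y) := by
  rcases le_total x y with h | h
  · obtain ⟨d, hd, -⟩ := hS.2 x hx y hy h
    refine ⟨-d, ?_⟩
    have : (y : ℤ) ^ 2 = (x : ℤ) ^ 2 + q * d := by exact_mod_cast hd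
    linear_combination -this
  · obtain ⟨d, hd, -⟩ := hS.2 y hy x hx h
    refine ⟨d, ?_⟩
    have : (x : ℤ) ^ 2 = (y : ℤ) ^ 2 + q * d := by exact_mod_cast hd
    linear_combination this

theorem Sg_not_dvd {q N : ℕ} {S : Finset ℕ} (hS : Good q N S) {x : ℕ} (hx : x ∈ S) {p : ℕ}
    (hp : p ∈ q.primeFactors) : ¬ (p : ℤ) ∣ (x : ℤ) := by
  intro h
  have h1 : p ∣ x := Int.natCast_dvd_natCast.mp h
  have h2 : p ∣ q := Nat.dvd_of_mem_primeFactors hp
  have h3 := Nat.dvd_gcd h1 h2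
  rw [Nat.Coprime.gcd_eq_one (hS.1 x hx)] at h3
  exact (Nat.prime_of_mem_primeFactors hp).one_lt.ne' (Nat.dvd_one.mp h3)

/-- `md q p` divides `x - y` or `x + y`.  Proof: let `v = q.factorization p`, `p ^ v ∣ q ∣ x^2 - y^2 = (x-y)(x+y)` in `ℤ`.
`p ∤ x` (coprime to `q`).  `p` odd: if `p` divided both factors it would divide `2x`; so one factor is coprime to `p ^ v`
and `p ^ v` divides the other.  `p = 2`: `x, y` are odd.  If `v ≤ 2`: `md = 2` divides `x - y`.  If `v ≥ 3`: `x - y = 2 s`,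
`x + y = 2 t`, `s + t = x` odd, so one of `s`, `t` is odd; `2^(v-2) ∣ s t`, so `2^(v-2)` divides the even one, and `2^(v-1)` divides
`x - y` or `x + y`. -/
theorem md_dvd_or {q N : ℕ} {S : Finset ℕ} (hS : Good q N S) {x y : ℕ} (hx : x ∈ S) (hy : y ∈ S)
    {p : ℕ} (hp : p ∈ q.primeFactors) :
    (md q p : ℤ) ∣ (x : ℤ) - y ∨ (md q p : ℤ) ∣ (x : ℤ) + y := by
  have hpp := Nat.prime_of_mem_primeFactors hp
  have hpi : Prime (p : ℤ) := Nat.prime_iff_prime_int.mp hpp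
  have hxp := Sg_not_dvd hS hx hp
  have hyp := Sg_not_dvd hS hy hp
  have hpv : ((p : ℤ) ^ q.factorization p) ∣ ((x : ℤ) - y) * ((x : ℤ) + y) := by
    refine dvd_trans ?_ (Sg_q_dvd hS hx hy)
    exact_mod_cast Nat.ordProj_dvd q p
  unfold md
  by_cases h2 : p = 2
  · subst h2
    rw [if_pos rfl]
    have hxo : ¬ (2 : ℤ) ∣ (x : ℤ) := by exact_mod_cast hxp
    have hyo : ¬ (2 : ℤ) ∣ (y : ℤ) := by exact_mod_cast hyp
    by_cases h : q.factorization 2 ≤ 2
    · rw [if_pos h]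
      left
      push_cast
      omega
    · rw [if_neg h]
      obtain ⟨s, hs⟩ : ∃ s : ℤ, (x : ℤ) - y = 2 * s := ⟨((x : ℤ) - y) / 2, by omega⟩
      obtain ⟨t, ht⟩ : ∃ t : ℤ, (x : ℤ) + y = 2 * t := ⟨((x : ℤ) + y) / 2, by omega⟩
      have hst : (2 : ℤ) ^ (q.factorization 2 - 2) ∣ s * t := by
        rw [hs, ht] at hpv
        have e1 : ((2 : ℕ) : ℤ) ^ q.factorization 2 = 4 * 2 ^ (q.factorization 2 - 2) := by
          have : q.factorization 2 = 2 + (q.factorization 2 - 2) := by omega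
          conv_lhs => rw [this, pow_add]
          norm_num
        rw [e1, show (2 * s) * (2 * t) = 4 * (s * t) by ring] at hpv
        exact (mul_dvd_mul_iff_left (by norm_num)).mp hpv
      have e2 : ((2 ^ (q.factorization 2 - 1) : ℕ) : ℤ) = 2 * 2 ^ (q.factorization 2 - 2) := by
        have : q.factorization 2 - 1 = (q.factorization 2 - 2) + 1 := by omega
        rw [this]
        push_cast
        ring
      rw [e2, hs, ht]
      have h2i : Prime (2 : ℤ) := Int.prime_two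
      by_cases hs2 : (2 : ℤ) ∣ s
      · left
        have ht2 : ¬ (2 : ℤ) ∣ t := by omega
        have hc : IsCoprime ((2 : ℤ) ^ (q.factorization 2 - 2)) t :=
          (h2i.coprime_iff_not_dvd.mpr ht2).pow_left
        exact mul_dvd_mul_left 2 (hc.dvd_of_dvd_mul_right hst)
      · right
        have hc : IsCoprime ((2 : ℤ) ^ (q.factorization 2 - 2)) s :=
          (h2i.coprime_iff_not_dvd.mpr hs2).pow_left
        exact mul_dvd_mul_left 2 (hc.dvd_of_dvd_mul_left hst)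
  · rw [if_neg h2]
    push_cast
    by_cases hd : (p : ℤ) ∣ (x : ℤ) - y
    · left
      have hn : ¬ (p : ℤ) ∣ (x : ℤ) + y := by
        intro hn
        have h3 : (p : ℤ) ∣ 2 * (x : ℤ) := by
          have := dvd_add hd hn
          have e : (x : ℤ) - y + (x + y) = 2 * x := by ring
          rwa [e] at this
        rcases hpi.dvd_or_dvd h3 with h4 | h4
        · have h5 : p ∣ 2 := by exact_mod_cast h4
          exact h2 ((Nat.prime_dvd_prime_iff_eq hpp Nat.prime_two).mp h5)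
        · exact hxp h4
      exact (hpi.coprime_iff_not_dvd.mpr hn).pow_left.dvd_of_dvd_mul_right hpv
    · right
      exact (hpi.coprime_iff_not_dvd.mpr hd).pow_left.dvd_of_dvd_mul_left hpv

theorem sg_eq_or (q z p x : ℕ) : sg q z p x = 1 ∨ sg q z p x = -1 := by
  unfold sg
  split_ifs
  · exact Or.inl rfl
  · exact Or.inr rfl

theorem sg_sq (q z p x : ℕ) : sg q z p x * sg q z p x = 1 := by
  rcases sg_eq_or q z p x with h | h <;> rw [h] <;> norm_num

theorem dvd_sub_of_sg_eq {q N : ℕ} {S : Finset ℕ} (hS : Good q N S) {x y z : ℕ} (hx : x ∈ S)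
    (hy : y ∈ S) (hz : z ∈ S) {p : ℕ} (hp : p ∈ q.primeFactors) (h : sg q z p x = sg q z p y) :
    (md q p : ℤ) ∣ (x : ℤ) - y := by
  unfold sg at h
  by_cases h1 : (md q p : ℤ) ∣ (x : ℤ) - z <;> by_cases h2 : (md q p : ℤ) ∣ (y : ℤ) - z
  · have := dvd_sub h1 h2
    rwa [show (x : ℤ) - z - (y - z) = x - y by ring] at this
  · rw [if_pos h1, if_neg h2] at h
    norm_num at h
  · rw [if_neg h1, if_pos h2] at h
    norm_num at h
  · have h3 := (md_dvd_or hS hx hz hp).resolve_left h1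
    have h4 := (md_dvd_or hS hy hz hp).resolve_left h2
    have := dvd_sub h3 h4
    rwa [show (x : ℤ) + z - (y + z) = x - y by ring] at this

theorem dvd_add_of_sg_ne {q N : ℕ} {S : Finset ℕ} (hS : Good q N S) {x y z : ℕ} (hx : x ∈ S)
    (hy : y ∈ S) (hz : z ∈ S) {p : ℕ} (hp : p ∈ q.primeFactors) (h : sg q z p x ≠ sg q z p y) :
    (md q p : ℤ) ∣ (x : ℤ) + y := by
  unfold sg at h
  by_cases h1 : (md q p : ℤ) ∣ (x : ℤ) - z <;> by_cases h2 : (md q p : ℤ) ∣ (y : ℤ) - z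
  · rw [if_pos h1, if_pos h2] at h
    exact absurd rfl h
  · have h4 := (md_dvd_or hS hy hz hp).resolve_left h2
    have := dvd_add h1 h4
    rwa [show (x : ℤ) - z + (y + z) = x + y by ring] at this
  · have h3 := (md_dvd_or hS hx hz hp).resolve_left h1
    have := dvd_add h3 h2
    rwa [show (x : ℤ) + z + (y - z) = x + y by ring] at this
  · rw [if_neg h1, if_neg h2] at h
    exact absurd rfl h

/-- The two products. -/
theorem exists_split {q N : ℕ} {S : Finset ℕ} (hS : Good q N S) {x y z : ℕ} (hx : x ∈ S)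
    (hy : y ∈ S) (hz : z ∈ S) :
    ∃ A B : ℕ, 0 < A ∧ 0 < B ∧ A * B = qs q ∧ (A : ℤ) ∣ (x : ℤ) - y ∧ (B : ℤ) ∣ (x : ℤ) + y ∧
      MM q z x y = Real.log A - Real.log B := by
  classical
  have hpos : ∀ (P : Finset ℕ), P ⊆ q.primeFactors → 0 < ∏ p ∈ P, md q p := by
    intro P hP
    exact Finset.prod_pos fun p hp => lt_of_lt_of_le (by norm_num) (two_le_md (hP hp))
  have hlog : ∀ (P : Finset ℕ), P ⊆ q.primeFactors →
      Real.log ((∏ p ∈ P, md q p : ℕ) : ℝ) = ∑ p ∈ P, wt q p := by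
    intro P hP
    unfold wt
    push_cast
    rw [Real.log_prod]
    intro p hp
    have h2 : (2 : ℝ) ≤ (md q p : ℝ) := by exact_mod_cast two_le_md (hP hp)
    linarith
  set PA := q.primeFactors.filter fun p => sg q z p x = sg q z p y with hPA
  set PB := q.primeFactors.filter fun p => ¬ sg q z p x = sg q z p y with hPB
  have hA : PA ⊆ q.primeFactors := Finset.filter_subset _ _
  have hB : PB ⊆ q.primeFactors := Finset.filter_subset _ _
  refine ⟨∏ p ∈ PA, md q p, ∏ p ∈ PB, md q p, hpos PA hA, hpos PB hB, ?_, ?_, ?_, ?_⟩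
  · unfold qs
    exact Finset.prod_filter_mul_prod_filter_not _ _ _
  · refine prod_md_dvd PA hA _ fun p hp => ?_
    exact dvd_sub_of_sg_eq hS hx hy hz (hA hp) (Finset.mem_filter.mp hp).2
  · refine prod_md_dvd PB hB _ fun p hp => ?_
    exact dvd_add_of_sg_ne hS hx hy hz (hB hp) (Finset.mem_filter.mp hp).2
  · rw [hlog PA hA, hlog PB hB]
    unfold MM
    rw [← Finset.sum_filter_add_sum_filter_not q.primeFactors
      (fun p => sg q z p x = sg q z p y), ← hPA, ← hPB, sub_eq_add_neg, ← Finset.sum_neg_distrib]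
    congr 1
    · refine Finset.sum_congr rfl fun p hp => ?_
      rw [(Finset.mem_filter.mp hp).2, sg_sq, mul_one]
    · refine Finset.sum_congr rfl fun p hp => ?_
      have hne := (Finset.mem_filter.mp hp).2
      rcases sg_eq_or q z p x with h1 | h1 <;> rcases sg_eq_or q z p y with h2 | h2
      · exact absurd (h1.trans h2.symm) hne
      · rw [h1, h2]
        ring
      · rw [h1, h2]
        ring
      · exact absurd (h1.trans h2.symm) hne

theorem MM_comm (q z x y : ℕ) : MM q z x y = MM q z y x := by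
  unfold MM
  refine Finset.sum_congr rfl fun p _ => ?_
  rw [mul_comm (sg q z p x)]

theorem MM_self (q z x : ℕ) : MM q z x x = WW q := by
  unfold MM WW
  refine Finset.sum_congr rfl fun p _ => ?_
  rw [sg_sq, mul_one]

theorem Sg_key {q N : ℕ} {S : Finset ℕ} (hq : q ≠ 0) (hS : Good q N S) {x y z : ℕ} (hx : x ∈ S)
    (hy : y ∈ S) (hz : z ∈ S) (hxy : x < y) :
    ∃ A B : ℝ, 0 < A ∧ 0 < B ∧ A * B = qs q ∧ A ≤ (y : ℝ) - x ∧ B ≤ (x : ℝ) + y ∧
      MM q z x y = Real.log A - Real.log B ∧ ((y : ℝ) - x) * ((x : ℝ) + y) ≤ 2 * N * qs q ∧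
      (1 : ℝ) ≤ N := by
  obtain ⟨A, B, hA, hB, hAB, hdA, hdB, hM⟩ := exists_split hS hx hy hz
  obtain ⟨d, hd, hdN⟩ := hS.2 x hx y hy hxy.le
  have hxy' : (0 : ℤ) < (y : ℤ) - x := by
    have : (x : ℤ) < y := by exact_mod_cast hxy
    linarith
  have h1 : (A : ℤ) ≤ (y : ℤ) - x := by
    refine Int.le_of_dvd hxy' ?_
    rw [← neg_sub]
    exact (dvd_neg).mpr hdA
  have h2 : (B : ℤ) ≤ (x : ℤ) + y := Int.le_of_dvd (by omega) hdB
  refine ⟨A, B, by exact_mod_cast hA, by exact_mod_cast hB, by exact_mod_cast hAB, ?_, ?_, hM, ?_, ?_⟩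
  · exact_mod_cast h1
  · exact_mod_cast h2
  · have hd' : (y : ℝ) ^ 2 = (x : ℝ) ^ 2 + q * d := by exact_mod_cast hd
    have hq2 : (q : ℝ) ≤ 2 * qs q := by exact_mod_cast le_two_mul_qs hq
    have hdN' : (d : ℝ) ≤ N := by exact_mod_cast hdN.le
    have h3 : (q : ℝ) * d ≤ (2 * qs q) * N :=
      mul_le_mul hq2 hdN' (by positivity) (by positivity)
    calc ((y : ℝ) - x) * ((x : ℝ) + y) = (y : ℝ) ^ 2 - (x : ℝ) ^ 2 := by ring
      _ = q * d := by rw [hd']; ring
      _ ≤ 2 * N * qs q := by linarith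
  · have : 1 ≤ N := by omega
    exact_mod_cast this

theorem Sg_MM_le_aux {q N : ℕ} {S : Finset ℕ} (hq : q ≠ 0) (hS : Good q N S) {x y z : ℕ}
    (hx : x ∈ S) (hy : y ∈ S) (hz : z ∈ S) (hxy : x < y) : MM q z x y ≤ Real.log (2 * N) := by
  obtain ⟨A, B, hA, hB, hAB, h1, h2, hM, h3, hN⟩ := Sg_key hq hS hx hy hz hxy
  have hqs : (0 : ℝ) < qs q := by exact_mod_cast qs_pos q
  have hlogB : Real.log B = Real.log (qs q) - Real.log A := by
    rw [← hAB, Real.log_mul hA.ne' hB.ne']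
    ring
  rw [hM, hlogB]
  have h4 : A ^ 2 ≤ 2 * N * qs q := by
    have hx0 : (0 : ℝ) ≤ x := by positivity
    have h5 : A * A ≤ ((y : ℝ) - x) * ((x : ℝ) + y) :=
      mul_le_mul h1 (by linarith) hA.le (by linarith)
    nlinarith
  have h6 := Real.log_le_log (by positivity) h4
  rw [Real.log_pow, Real.log_mul (by positivity) hqs.ne'] at h6
  push_cast at h6
  linarith

/-- Upper bound.  Proof: let `x < y` (`MM_comm`); `A ≤ y - x`, `A B = qs ≥ q / 2`, `MM = 2 log A - log qs`,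
`A^2 ≤ (y - x)^2 ≤ y^2 - x^2 ≤ q N ≤ 2 N qs`. -/
theorem MM_le {q N : ℕ} {S : Finset ℕ} (hq : q ≠ 0) (hS : Good q N S) {x y z : ℕ} (hx : x ∈ S)
    (hy : y ∈ S) (hz : z ∈ S) (hxy : x ≠ y) : MM q z x y ≤ Real.log (2 * N) := by
  rcases lt_or_gt_of_ne hxy with h | h
  · exact Sg_MM_le_aux hq hS hx hy hz h
  · rw [MM_comm]
    exact Sg_MM_le_aux hq hS hy hx hz h

/-- Lower bound: `B ≤ x + y`, `MM = log qs - 2 log B`. -/
theorem MM_ge {q N : ℕ} {S : Finset ℕ} (hS : Good q N S) {x y z : ℕ} (hx : x ∈ S)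
    (hy : y ∈ S) (hz : z ∈ S) (hxy : x ≠ y) :
    WW q - 2 * Real.log ((x : ℝ) + y) ≤ MM q z x y := by
  obtain ⟨A, B, hA, hB, hAB, hdA, hdB, hM⟩ := exists_split hS hx hy hz
  have hAr : (0 : ℝ) < A := by exact_mod_cast hA
  have hBr : (0 : ℝ) < B := by exact_mod_cast hB
  have hpos : (0 : ℤ) < (x : ℤ) + y := by omega
  have h2 : (B : ℤ) ≤ (x : ℤ) + y := Int.le_of_dvd hpos hdB
  have h2' : (B : ℝ) ≤ (x : ℝ) + y := by exact_mod_cast h2
  have h3 := Real.log_le_log hBr h2'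
  have hAB' : (A : ℝ) * B = qs q := by exact_mod_cast hAB
  rw [hM, WW_eq, ← hAB', Real.log_mul hAr.ne' hBr.ne']
  linarith

theorem Sg_MM_le'_aux {q N : ℕ} {S : Finset ℕ} (hq : q ≠ 0) (hS : Good q N S) {x y z : ℕ}
    (hx : x ∈ S) (hy : y ∈ S) (hz : z ∈ S) (hxy : x < y) :
    MM q z x y ≤ WW q + 2 * Real.log (2 * N) - 2 * Real.log ((x : ℝ) + y) := by
  obtain ⟨A, B, hA, hB, hAB, h1, h2, hM, h3, hN⟩ := Sg_key hq hS hx hy hz hxy
  have hqs : (0 : ℝ) < qs q := by exact_mod_cast qs_pos q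
  have hlogB : Real.log B = Real.log (qs q) - Real.log A := by
    rw [← hAB, Real.log_mul hA.ne' hB.ne']
    ring
  have hxy' : (0 : ℝ) < (x : ℝ) + y := by
    have : (0 : ℝ) < y := by exact_mod_cast (lt_of_le_of_lt (Nat.zero_le x) hxy)
    positivity
  have h4 : A * ((x : ℝ) + y) ≤ 2 * N * qs q :=
    (mul_le_mul_of_nonneg_right h1 hxy'.le).trans h3
  have h6 := Real.log_le_log (by positivity) h4
  rw [Real.log_mul hA.ne' hxy'.ne', Real.log_mul (by positivity) hqs.ne'] at h6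
  rw [hM, hlogB, WW_eq]
  linarith

/-- Second upper bound: `A (x + y) ≤ |x - y| (x + y) ≤ q N ≤ 2 N qs`, `MM = 2 log A - log qs`. -/
theorem MM_le' {q N : ℕ} {S : Finset ℕ} (hq : q ≠ 0) (hS : Good q N S) {x y z : ℕ} (hx : x ∈ S)
    (hy : y ∈ S) (hz : z ∈ S) (hxy : x ≠ y) :
    MM q z x y ≤ WW q + 2 * Real.log (2 * N) - 2 * Real.log ((x : ℝ) + y) := by
  rcases lt_or_gt_of_ne hxy with h | h
  · exact Sg_MM_le'_aux hq hS hx hy hz h
  · rw [MM_comm, add_comm (x : ℝ)]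
    exact Sg_MM_le'_aux hq hS hy hx hz h

end Pool.Agent.Lib.MP_2c6f70_nt
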