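import Pool.Agent.Lib.MP_2c6f70_nt.TwentyFour
import Pool.Agent.Lib.MP_2c6f70_nt.Lower

/-!
# Sharp lower bounds for the number of squares in `24 n + 1` and for `log q`
-/

set_option autoImplicit false

namespace Pool.Agent.Lib.MP_2c6f70_nt

open Necdea073

theorem factorial_le_prod : ∀ (n : ℕ) (A : Finset ℕ), (∀ a ∈ A, 0 < a) → A.card = n →
    n.factorial ≤ ∏ a ∈ A, a := by
  intro n
  induction n with
  | zero =>
    intro A _ h
    rw [Finset.card_eq_zero] at h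
    subst h
    simp
  | succ n ih =>
    intro A hA h
    have hne : A.Nonempty := by
      rw [← Finset.card_pos]
      omega
    have hm := Finset.max'_mem A hne
    have h1 : n + 1 ≤ A.max' hne := by
      have h2 : A ⊆ Finset.Icc 1 (A.max' hne) := by
        intro a ha
        rw [Finset.mem_Icc]
        exact ⟨hA a ha, Finset.le_max' A a ha⟩
      have h3 := Finset.card_le_card h2
      rw [Nat.card_Icc, h] at h3
      omega
    have h4 := ih (A.erase (A.max' hne)) (fun a ha => hA a (Finset.mem_of_mem_erase ha))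
      (by rw [Finset.card_erase_of_mem hm, h]; rfl)
    rw [← Finset.mul_prod_erase A (fun a => a) hm, Nat.factorial_succ]
    exact Nat.mul_le_mul h1 h4

/-- `log q ≥ D (log D - 1)`, `D = ω(q) ≥ 1`. -/
theorem log_ge' {q : ℕ} (hq : q ≠ 0) (hD : 1 ≤ q.primeFactors.card) :
    (q.primeFactors.card : ℝ) * (Real.log q.primeFactors.card - 1) ≤ Real.log q := by
  have h1 : q.primeFactors.card.factorial ≤ q :=
    (factorial_le_prod _ q.primeFactors (fun a ha => (Nat.prime_of_mem_primeFactors ha).pos)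
      rfl).trans (Nat.le_of_dvd (Nat.pos_of_ne_zero hq) (Nat.prod_primeFactors_dvd q))
  generalize q.primeFactors.card = D at *
  have hDr : (1 : ℝ) ≤ D := by exact_mod_cast hD
  have hD0 : (0 : ℝ) < D := by linarith
  have h2 := Real.pow_div_factorial_le_exp (D : ℝ) hD0.le D
  have hf : (0 : ℝ) < D.factorial := by exact_mod_cast Nat.factorial_pos D
  rw [div_le_iff₀ hf] at h2
  have h3 : (D : ℝ) ^ D ≤ Real.exp D * q := by
    refine h2.trans (mul_le_mul_of_nonneg_left ?_ (Real.exp_pos _).le)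
    exact_mod_cast h1
  have hq0 : (0 : ℝ) < q := by exact_mod_cast Nat.pos_of_ne_zero hq
  have h4 := Real.log_le_log (by positivity) h3
  rw [Real.log_mul (Real.exp_pos _).ne' hq0.ne', Real.log_exp, Real.log_pow] at h4
  linarith

/-- `Q(N;24,1) ≥ sqrt (8 (N - 1) / 3) - 1`. -/
theorem Q24_ge' (N : ℕ) (hN : 2 ≤ N) : Real.sqrt (8 / 3 * ((N : ℝ) - 1)) - 1 ≤ (Q N 24 1 : ℝ) := by
  have hNr : (2 : ℝ) ≤ N := by exact_mod_cast hN
  set s := Real.sqrt (8 / 3 * ((N : ℝ) - 1)) with hs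
  have hs1 : 1 ≤ s := by
    rw [hs]
    apply Real.le_sqrt_of_sq_le
    nlinarith
  set T := ⌊s⌋₊ with hT
  have hT1 : 1 ≤ T := Nat.le_floor (by exact_mod_cast hs1)
  have hTs : (T : ℝ) ≤ s := Nat.floor_le (by linarith)
  have hsT : s < T + 1 := Nat.lt_floor_add_one s
  have hcc : cc T ≤ 3 * T := by
    unfold cc
    split_ifs <;> omega
  have hss : s ^ 2 = 8 / 3 * ((N : ℝ) - 1) := Real.sq_sqrt (by linarith)
  have hsq : cc T ^ 2 ≤ 24 * (N - 1) + 1 := by
    have h1 : cc T ^ 2 ≤ (3 * T) ^ 2 := Nat.pow_le_pow_left hcc 2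
    have h2 : ((3 * T) ^ 2 : ℕ) ≤ 24 * (N - 1) := by
      have h3 : (((3 * T) ^ 2 : ℕ) : ℝ) ≤ ((24 * (N - 1) : ℕ) : ℝ) := by
        push_cast
        rw [Nat.cast_sub (by omega)]
        push_cast
        nlinarith
      exact_mod_cast h3
    omega
  have h5 := le_Q24 N T hT1 hsq (by omega)
  have h6 : (T : ℝ) ≤ Q N 24 1 := by exact_mod_cast h5
  linarith

/-- Asymptotic form. -/
theorem Q24_asy (ε : ℝ) (hε : 0 < ε) : ∃ N₀ : ℕ, ∀ N ≥ N₀,
    (1 - ε) * Real.sqrt (8 / 3 * N) ≤ (Q N 24 1 : ℝ) := by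
  obtain ⟨K, hK⟩ := exists_nat_gt ((3 / ε) ^ 2)
  refine ⟨max K 2, fun N hN => ?_⟩
  have hN2 : 2 ≤ N := le_trans (le_max_right _ _) hN
  have hNK : K ≤ N := le_trans (le_max_left _ _) hN
  have hNr : (2 : ℝ) ≤ N := by exact_mod_cast hN2
  have hKr : (K : ℝ) ≤ N := by exact_mod_cast hNK
  have h1 := Q24_ge' N hN2
  have h2 : Real.sqrt (8 / 3 * N) - 2 ≤ Real.sqrt (8 / 3 * ((N : ℝ) - 1)) := by
    rw [sub_le_iff_le_add, Real.sqrt_le_left (by positivity)]
    have h3 : Real.sqrt (8 / 3 * ((N : ℝ) - 1)) ^ 2 = 8 / 3 * ((N : ℝ) - 1) :=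
      Real.sq_sqrt (by linarith)
    nlinarith [Real.sqrt_nonneg (8 / 3 * ((N : ℝ) - 1))]
  have h4 : 3 / ε ≤ Real.sqrt (8 / 3 * N) := by
    apply Real.le_sqrt_of_sq_le
    linarith
  have h5 : 3 ≤ ε * Real.sqrt (8 / 3 * N) := by
    rw [div_le_iff₀ hε] at h4
    linarith
  linarith

end Pool.Agent.Lib.MP_2c6f70_nt
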